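import Pool.Agent.Helper81.PF.C9
import Pool.Agent.Helper98.PF.Wrap

/-!
Project PF, block C: the predicate `Core`.
-/

open Module

namespace MH

theorem core_of_prime {n : Type*} [Fintype n] [DecidableEq n] {m : ℤ} {r : ℤ → ℕ} (h2 : 2 ≤ Fintype.card n)
    (hM : ∃ q, 2 ≤ r q) (h0 : r m ≠ Fintype.card n) {p : ℕ} (hp : p.Prime) (hd : p ∣ Fintype.card n)
    (h25 : 25 * Fintype.card n ≤ p ^ 2) : Core n m r := by
  refine core_of98 h2 hM (fun ω hsymm hnd L hL hirr hsk => ?_) h0
  have : LieAlgebra.IsSimple ℂ L := hL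
  refine PF.C.core ω hsymm hnd L hirr hsk hp ?_ ?_
  · rw [Module.finrank_fintype_fun_eq_card]
    exact hd
  · rw [Module.finrank_fintype_fun_eq_card]
    exact h25

end MH
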