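import Pool.Agent.Helper81.PF.C1
import Pool.Agent.Helper88.MT.Top
import Pool.Agent.Helper88.MT.Extremal

/-!
Project PF, block C: the weights of an irreducible self-dual module as a saturated set.
-/

set_option linter.unusedSectionVars false

open Module LieModule LieAlgebra LieAlgebra.IsKilling MTP.MF

namespace PF.CC

variable {K : Type*} [Field K] [CharZero K] [IsAlgClosed K]
  {L : Type*} [LieRing L] [LieAlgebra K L] [FiniteDimensional K L] [IsKilling K L]
  {H : LieSubalgebra K L} [H.IsCartanSubalgebra]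
  {V : Type*} [AddCommGroup V] [Module K V] [FiniteDimensional K V]
  [LieRingModule L V] [LieModule K L V] {I : Type*} [Fintype I] (B : WB (V := V) H I)

/-- `u` is a vector of weight `χ`. -/
def IsW (H : LieSubalgebra K L) (χ : H → K) (u : V) : Prop := ∀ h : H, ⁅(h : L), u⁆ = χ h • u

theorem IsW.index {χ : H → K} {u : V} (hu : IsW H χ u) (h0 : u ≠ 0) : ∃ i, ∀ h, B.w i h = χ h := by
  have h1 : B.v.repr u ≠ 0 := fun h => h0 (B.v.repr.map_eq_zero_iff.mp h)
  obtain ⟨i, hi⟩ := Finsupp.ne_iff.mp h1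
  exact ⟨i, fun h => B.coord (hu h) hi⟩

theorem IsW.lie {χ : H → K} {u : V} (hu : IsW H χ u) {β : H → K} {x : L}
    (hx : x ∈ rootSpace H β) : IsW H (fun h => β h + χ h) ⁅x, u⁆ := by
  intro h
  have h1 : ⁅(h : L), x⁆ = β h • x := lie_eq_smul_of_mem_rootSpace hx h
  rw [leibniz_lie, h1, hu h, smul_lie, lie_smul, ← add_smul]

theorem IsW.pow {χ : H → K} {u : V} (hu : IsW H χ u) {β : H → K} {x : L}
    (hx : x ∈ rootSpace H β) (k : ℕ) :
    IsW H (fun h => (k : K) * β h + χ h) (((toEnd K L V x) ^ k) u) := by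
  induction k with
  | zero =>
    intro h
    simp only [pow_zero, Module.End.one_apply, Nat.cast_zero, zero_mul, zero_add]
    exact hu h
  | succ k ih =>
    rw [pow_succ', Module.End.mul_apply, toEnd_apply_apply]
    intro h
    rw [ih.lie hx h]
    congr 1
    push_cast
    ring

/-- Root strings through a weight. -/
theorem string (α : H.root) (i : I) : ∃ a n : ℕ, B.w i (coroot α.1) = (n : K) - 2 * a ∧
    ∀ j ≤ n, ∃ i', ∀ h : H, B.w i' h = B.w i h + ((a : K) - j) * α.1 h := by
  classical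
  obtain ⟨e, f, ht, he, hf⟩ := exists_triple (H := H) α
  have hαc : α.1 (coroot α.1) = (2 : K) := root_apply_coroot (H.isNonZero_coe_root α)
  have hi : IsW H (fun h => B.w i h) (B.v i) := B.lie_v i
  have hex : ∃ k, ((toEnd K L V e) ^ k) (B.v i) = 0 := by
    by_contra! hcon
    have h1 : ∀ k : ℕ, ∃ j, ∀ h, B.w j h = (k : K) * α.1 h + B.w i h := fun k =>
      (hi.pow he k).index B (hcon k)
    choose g hg using h1
    have h2 : Function.Injective g := by
      intro k l hkl
      have h3 := hg k (coroot α.1)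
      rw [hkl, hg l (coroot α.1), hαc] at h3
      have h4 : (l : K) = k := by
        have h5 : ((l : K) - k) * 2 = 0 := by linear_combination h3
        rcases mul_eq_zero.1 h5 with h6 | h6
        · exact sub_eq_zero.1 h6
        · exact absurd h6 two_ne_zero
      exact_mod_cast h4.symm
    exact not_injective_infinite_finite g h2
  obtain ⟨a, ha, ha1⟩ := Nat.exists_not_and_succ_of_not_zero_of_exists
    (p := fun k => ((toEnd K L V e) ^ k) (B.v i) = 0) (by
      simpa using B.v.ne_zero i) hex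
  have hP : ht.HasPrimitiveVectorWith (((toEnd K L V e) ^ a) (B.v i))
      (B.w i (coroot α.1) + 2 * (a : K)) := by
    refine ⟨ha, ?_, ?_⟩
    · have h1 : ⁅((coroot α.1 : H) : L), ((toEnd K L V e) ^ a) (B.v i)⁆ =
          ((a : K) * α.1 (coroot α.1) + B.w i (coroot α.1)) • ((toEnd K L V e) ^ a) (B.v i) :=
        hi.pow he a (coroot α.1)
      rw [h1, hαc]
      congr 1
      ring
    · have h1 : ((toEnd K L V e) ^ (a + 1)) (B.v i) = 0 := ha1
      rw [pow_succ', Module.End.mul_apply, toEnd_apply_apply] at h1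
      exact h1
  obtain ⟨n, hn⟩ := hP.exists_nat
  refine ⟨a, n, by linear_combination hn, fun j hj => ?_⟩
  have hne := hP.pow_toEnd_f_ne_zero_of_eq_nat hn hj
  obtain ⟨i', hi'⟩ := ((hi.pow he a).pow hf j).index B hne
  refine ⟨i', fun h => ?_⟩
  rw [hi' h]
  have h1 : (-(α.1 : H → K)) h = - α.1 h := rfl
  rw [h1]
  ring

theorem exists_wt (i : I) : ∃ f : H.root → ℤ, ∀ α, B.w i (coroot α.1) = (f α : K) := by
  have h1 : ∀ α : H.root, ∃ k : ℤ, B.w i (coroot α.1) = (k : K) := by
    intro α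
    obtain ⟨a, n, h1, -⟩ := string B α i
    exact ⟨n - 2 * a, by rw [h1]; push_cast; ring⟩
  choose f hf using h1
  exact ⟨f, hf⟩

/-- The coordinates of a weight. -/
noncomputable def wt (i : I) : H.root → ℤ := (exists_wt B i).choose

theorem wt_spec (i : I) (α : H.root) : B.w i (coroot α.1) = (wt B i α : K) :=
  (exists_wt B i).choose_spec α

theorem rt_spec (α β : H.root) : α.1 (coroot β.1) = (rt (rootSystem H) α β : K) := by
  rw [cast_rt]
  rfl

/-- Weights are determined by their values on the coroots. -/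
theorem dual_ext {χ ψ : Dual K H} (h : ∀ α : H.root, χ (coroot α.1) = ψ (coroot α.1)) : χ = ψ := by
  ext x
  have hx : x ∈ Submodule.span K (Set.range (rootSystem H).coroot) := by
    have h5 : Submodule.span K (Set.range (rootSystem H).coroot) = ⊤ :=
      RootPairing.IsRootSystem.span_coroot_eq_top
    rw [h5]
    trivial
  induction hx using Submodule.span_induction with
  | mem y hy =>
    obtain ⟨α, rfl⟩ := hy
    exact h α
  | zero => rw [map_zero, map_zero]
  | add a b _ _ ha hb => rw [map_add, map_add, ha, hb]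
  | smul c a _ ha => rw [map_smul, map_smul, ha]

theorem wt_wt (i : I) : Wt (rootSystem H) (wt B i) := by
  intro α β
  have h1 : ((wt B i ((rootSystem H).reflectionPerm α β) : ℤ) : K) =
      ((wt B i β - rt (rootSystem H) α β * wt B i α : ℤ) : K) := by
    push_cast
    rw [← wt_spec, ← wt_spec, ← wt_spec, cast_rt]
    have h2 : (coroot ((rootSystem H).reflectionPerm α β).1 : H) =
        (rootSystem H).coroot ((rootSystem H).reflectionPerm α β) := rfl
    rw [h2, (rootSystem H).coroot_reflectionPerm, (rootSystem H).coreflection_apply_coroot,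
      map_sub, map_smul, smul_eq_mul]
    rfl
  exact_mod_cast h1

/-- The weight of index `i'` is `w_i + k α`. -/
theorem wt_of {i i' : I} {α : H.root} {k : ℤ} (h : ∀ x : H, B.w i' x = B.w i x + (k : K) * α.1 x) :
    wt B i' = wt B i + k • rt (rootSystem H) α := by
  funext β
  have h1 : ((wt B i' β : ℤ) : K) = ((wt B i β + k * rt (rootSystem H) α β : ℤ) : K) := by
    push_cast
    rw [← wt_spec, ← wt_spec, ← rt_spec, h]
  have h2 : wt B i' β = wt B i β + k * rt (rootSystem H) α β := by exact_mod_cast h1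
  rw [h2]
  simp

open Classical in
/-- The set of weights. -/
noncomputable def Xw : Finset (EuclideanSpace ℝ H.root) := Finset.univ.image fun i => vec (wt B i)

theorem mem_Xw {v : EuclideanSpace ℝ H.root} : v ∈ Xw B ↔ ∃ i, vec (wt B i) = v := by
  classical
  simp [Xw]

theorem card_Xw : (Xw B).card ≤ Fintype.card I := by
  classical
  exact Finset.card_image_le

variable {ω : LinearMap.BilinForm K V}

theorem exists_neg (hnd : ω.Nondegenerate)
    (hsk : ∀ (x : L) (u v : V), ω ⁅x, u⁆ v = - ω u ⁅x, v⁆) (i : I) : ∃ j, B.w j = - B.w i := by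
  classical
  have h2 : B.v.repr ((B.dual hnd hsk).v i) ≠ 0 := by
    intro h
    exact (B.dual hnd hsk).v.ne_zero i (B.v.repr.map_eq_zero_iff.mp h)
  obtain ⟨j, hj⟩ := Finsupp.ne_iff.mp h2
  refine ⟨j, ?_⟩
  ext h
  exact B.coord ((B.dual hnd hsk).lie_v i h) hj

theorem sat [Nonempty I]
    (hirr : ∀ W : Submodule K V, (∀ x : L, ∀ u ∈ W, ⁅x, u⁆ ∈ W) → W = ⊥ ∨ W = ⊤)
    (hnd : ω.Nondegenerate) (hsk : ∀ (x : L) (u v : V), ω ⁅x, u⁆ v = - ω u ⁅x, v⁆) :
    Sat (Ph (rootSystem H)) (Xw B) where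
  nonempty := by
    obtain ⟨i⟩ := ‹Nonempty I›
    exact ⟨_, (mem_Xw B).2 ⟨i, rfl⟩⟩
  int := by
    intro a ha x hx
    obtain ⟨α, rfl⟩ := (mem_Ph _).1 ha
    obtain ⟨i, rfl⟩ := (mem_Xw B).1 hx
    exact ⟨_, co_vec _ (wt_wt B i) α⟩
  str := by
    intro a ha x hx j hj
    obtain ⟨α, rfl⟩ := (mem_Ph _).1 ha
    obtain ⟨i, rfl⟩ := (mem_Xw B).1 hx
    rw [co_vec _ (wt_wt B i) α] at hj
    have hj' : (j : ℤ) ≤ wt B i α := by exact_mod_cast hj
    obtain ⟨b, n, h1, h2⟩ := string B α i
    have h3 : wt B i α = n - 2 * b := by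
      have h4 : ((wt B i α : ℤ) : K) = ((n - 2 * b : ℤ) : K) := by
        rw [← wt_spec, h1]
        push_cast
        ring
      exact_mod_cast h4
    obtain ⟨i', hi'⟩ := h2 (b + j) (by omega)
    refine (mem_Xw B).2 ⟨i', ?_⟩
    rw [wt_of B (i := i) (α := α) (k := -(j : ℤ)) (fun x => by
      rw [hi' x]
      push_cast
      ring)]
    rw [neg_smul, ← sub_eq_add_neg, vec_sub_smul]
    simp
  neg := by
    intro x hx
    obtain ⟨i, rfl⟩ := (mem_Xw B).1 hx
    obtain ⟨j, hj⟩ := exists_neg B hnd hsk i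
    refine (mem_Xw B).2 ⟨j, ?_⟩
    rw [← vec_neg]
    congr 1
    funext α
    have h1 : ((wt B j α : ℤ) : K) = ((-(wt B i α) : ℤ) : K) := by
      push_cast
      rw [← wt_spec, ← wt_spec, hj]
      rfl
    have h2 : wt B j α = -(wt B i α) := by exact_mod_cast h1
    exact h2
  coset := by
    intro x hx y hy
    obtain ⟨i, rfl⟩ := (mem_Xw B).1 hx
    obtain ⟨i0, rfl⟩ := (mem_Xw B).1 hy
    obtain ⟨S, hS⟩ : ∃ S : AddSubgroup (EuclideanSpace ℝ H.root), S =
      AddSubgroup.closure ((Ph (rootSystem H) : Finset (EuclideanSpace ℝ H.root)) :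
        Set (EuclideanSpace ℝ H.root)) := ⟨_, rfl⟩
    rw [← hS]
    refine B.conn hirr {i | vec (wt B i) - vec (wt B i0) ∈ S} ⟨i0, by
        change vec (wt B i0) - vec (wt B i0) ∈ S
        rw [sub_self]
        exact zero_mem _⟩ ?_ i
    intro α j k hj hk
    have h1 := wt_of B (i := j) (i' := k) (α := α) (k := 1) (fun x => by
      rw [hk x]
      push_cast
      ring)
    change vec (wt B k) - vec (wt B i0) ∈ S
    rw [h1, one_smul, vec_add]
    have h2 : vec (wt B j) + vec (rt (rootSystem H) α) - vec (wt B i0) =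
      (vec (wt B j) - vec (wt B i0)) + vec (rt (rootSystem H) α) := by abel
    rw [h2]
    refine add_mem hj ?_
    rw [hS]
    refine AddSubgroup.subset_closure ?_
    exact (mem_Ph _).2 ⟨α, rfl⟩

theorem exists_ne_zero' (hfaith : ∀ x : L, (∀ u : V, ⁅x, u⁆ = 0) → x = 0) (α : H.root) :
    ∃ x ∈ Xw B, x ≠ 0 := by
  obtain ⟨i, j, hij⟩ := B.root_apply hfaith α
  have h1 := wt_of B (i := i) (i' := j) (α := α) (k := 1) (fun x => by
      rw [hij x]
      push_cast
      ring)
  by_contra! hcon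
  have h2 := hcon _ ((mem_Xw B).2 ⟨i, rfl⟩)
  have h3 := hcon _ ((mem_Xw B).2 ⟨j, rfl⟩)
  rw [h1, one_smul, vec_add, h2, zero_add] at h3
  have h4 := congrArg (fun v : EuclideanSpace ℝ H.root => v α) h3
  simp only [vec_apply, rt_self] at h4
  norm_num at h4

end PF.CC
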