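import Pool.Agent.Helper3.PF.Defs

/-!
Project PF, block C: a root pairing as a root system in a Euclidean space.
-/

set_option linter.unusedSectionVars false

open Module

namespace PF.CC

variable {ι K M N : Type*} [Field K] [CharZero K] [AddCommGroup M] [Module K M] [AddCommGroup N]
  [Module K N] [Fintype ι] (P : RootPairing ι K M N)

/-- The vector with the coordinates `f`. -/
noncomputable def vec (f : ι → ℤ) : EuclideanSpace ℝ ι := WithLp.toLp 2 fun i => (f i : ℝ)

@[simp] theorem vec_apply (f : ι → ℤ) (i : ι) : vec f i = (f i : ℝ) := rfl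

theorem vec_inj {f g : ι → ℤ} (h : vec f = vec g) : f = g := by
  funext i
  have h1 := congrArg (fun v : EuclideanSpace ℝ ι => v i) h
  simp only [vec_apply] at h1
  exact_mod_cast h1

theorem vec_add (f g : ι → ℤ) : vec (f + g) = vec f + vec g := by
  ext i
  simp

theorem vec_neg (f : ι → ℤ) : vec (-f) = -vec f := by
  ext i
  simp

theorem vec_sub_smul (f g : ι → ℤ) (k : ℤ) : vec (f - k • g) = vec f - (k : ℝ) • vec g := by
  ext i
  simp

theorem vec_zero : vec (0 : ι → ℤ) = 0 := by
  ext i
  simp

theorem inner_vec (f g : ι → ℤ) : inner ℝ (vec f) (vec g) = ((∑ i, f i * g i : ℤ) : ℝ) := by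
  rw [PiLp.inner_apply]
  push_cast
  refine Finset.sum_congr rfl fun i _ => ?_
  simp [mul_comm]

section crys

variable [P.IsCrystallographic]

/-- The coordinates of a root. -/
noncomputable def rt (i : ι) : ι → ℤ := fun j => P.pairingIn ℤ i j

/-- The compatibility of the coordinates of a weight with the reflections. -/
def Wt (f : ι → ℤ) : Prop := ∀ i j, f (P.reflectionPerm i j) = f j - rt P i j * f i

theorem rt_self (i : ι) : rt P i i = 2 := P.pairingIn_same ℤ i

theorem cast_rt (i j : ι) : (rt P i j : K) = P.pairing i j := P.algebraMap_pairingIn ℤ i j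

theorem rt_refl_left (i j k : ι) : rt P (P.reflectionPerm i j) k = rt P j k - rt P j i * rt P i k := by
  have h1 : ((rt P (P.reflectionPerm i j) k : ℤ) : K) =
      ((rt P j k - rt P j i * rt P i k : ℤ) : K) := by
    push_cast
    simp only [cast_rt]
    rw [RootPairing.pairing, RootPairing.pairing, RootPairing.pairing, RootPairing.root',
      P.root_reflectionPerm, P.reflection_apply_root, map_sub, map_smul, LinearMap.sub_apply,
      LinearMap.smul_apply, smul_eq_mul]
    rfl
  exact_mod_cast h1

theorem rt_refl_right (i j k : ι) : rt P k (P.reflectionPerm i j) = rt P k j - rt P i j * rt P k i := by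
  have h1 : rt P k (P.reflectionPerm i j) = rt P (P.reflectionPerm i k) j :=
    P.pairingIn_reflectionPerm ℤ i k j
  rw [h1, rt_refl_left]
  ring

theorem wt_rt (i : ι) : Wt P (rt P i) := fun j k => rt_refl_right P j k i

theorem rt_refl_self (i j : ι) : rt P i (P.reflectionPerm i j) = - rt P i j := by
  rw [rt_refl_right, rt_self]
  ring

/-- The pairing with a coroot in terms of the invariant form. -/
theorem two_sum {f : ι → ℤ} (hf : Wt P f) (i : ι) :
    2 * ∑ j, f j * rt P i j = f i * ∑ j, rt P i j * rt P i j := by
  have h1 : ∑ j, f j * rt P i j = ∑ j, (f j - rt P i j * f i) * (- rt P i j) := by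
    rw [← Equiv.sum_comp (P.reflectionPerm i)]
    refine Finset.sum_congr rfl fun j _ => ?_
    rw [hf i j, rt_refl_self]
  have h2 : ∑ j, (f j - rt P i j * f i) * (- rt P i j) =
      - ∑ j, f j * rt P i j + f i * ∑ j, rt P i j * rt P i j := by
    rw [Finset.mul_sum, ← Finset.sum_neg_distrib, ← Finset.sum_add_distrib]
    refine Finset.sum_congr rfl fun j _ => ?_
    ring
  rw [h2] at h1
  linarith

theorem sum_pos (i : ι) : 0 < ∑ j, rt P i j * rt P i j := by
  refine Finset.sum_pos' (fun j _ => mul_self_nonneg _) ⟨i, Finset.mem_univ i, ?_⟩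
  rw [rt_self]
  norm_num

theorem co_vec {f : ι → ℤ} (hf : Wt P f) (i : ι) : co (vec (rt P i)) (vec f) = f i := by
  have h1 := two_sum P hf i
  have h2 : (0 : ℝ) < ((∑ j, rt P i j * rt P i j : ℤ) : ℝ) := by exact_mod_cast sum_pos P i
  unfold co
  rw [inner_vec, inner_vec, div_eq_iff h2.ne']
  exact_mod_cast h1

open Classical in
/-- The root system. -/
noncomputable def Ph : Finset (EuclideanSpace ℝ ι) := Finset.univ.image fun i => vec (rt P i)

theorem mem_Ph {v : EuclideanSpace ℝ ι} : v ∈ Ph P ↔ ∃ i, vec (rt P i) = v := by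
  classical
  simp [Ph]

variable [P.IsRootSystem] [P.IsReduced] [P.IsIrreducible]

theorem rt_inj {i j : ι} (h : rt P i = rt P j) : i = j := by
  have h1 : P.root i = P.root j := by
    have h2 : ∀ k, P.toLinearMap (P.root i - P.root j) (P.coroot k) = 0 := by
      intro k
      have h3 := congrFun h k
      have h4 : P.pairing i k = P.pairing j k := by
        rw [← cast_rt, ← cast_rt, h3]
      rw [map_sub, LinearMap.sub_apply, sub_eq_zero]
      exact h4
    have h3 : P.toLinearMap (P.root i - P.root j) = 0 := by
      have h4 : ∀ y ∈ Submodule.span K (Set.range P.coroot),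
          P.toLinearMap (P.root i - P.root j) y = 0 := by
        intro y hy
        induction hy using Submodule.span_induction with
        | mem y hy =>
          obtain ⟨k, rfl⟩ := hy
          exact h2 k
        | zero => exact map_zero _
        | add a b _ _ ha hb => rw [map_add, ha, hb, add_zero]
        | smul c a _ ha => rw [map_smul, ha, smul_zero]
      ext y
      refine h4 y ?_
      have h5 : Submodule.span K (Set.range P.coroot) = ⊤ :=
        RootPairing.IsRootSystem.span_coroot_eq_top
      rw [h5]
      trivial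
    have h4 := P.toPerfPair.injective (a₁ := P.root i - P.root j) (a₂ := 0) (by
      rw [map_zero]
      exact h3)
    exact sub_eq_zero.1 h4
  exact P.root.injective h1

theorem rs [Nonempty ι] : RS (Ph P) where
  nonempty := by
    obtain ⟨i⟩ := ‹Nonempty ι›
    exact ⟨_, (mem_Ph P).2 ⟨i, rfl⟩⟩
  ne_zero := by
    intro a ha h0
    obtain ⟨i, rfl⟩ := (mem_Ph P).1 ha
    have h1 := congrArg (fun v : EuclideanSpace ℝ ι => v i) h0
    simp only [vec_apply, rt_self] at h1
    norm_num at h1
  int := by
    intro a ha b hb
    obtain ⟨i, rfl⟩ := (mem_Ph P).1 ha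
    obtain ⟨j, rfl⟩ := (mem_Ph P).1 hb
    exact ⟨_, co_vec P (wt_rt P j) i⟩
  refl := by
    intro a ha b hb
    obtain ⟨i, rfl⟩ := (mem_Ph P).1 ha
    obtain ⟨j, rfl⟩ := (mem_Ph P).1 hb
    rw [co_vec P (wt_rt P j) i, ← vec_sub_smul]
    refine (mem_Ph P).2 ⟨P.reflectionPerm i j, ?_⟩
    congr 1
    funext k
    rw [rt_refl_left]
    rfl
  red := by
    intro a ha c hc
    obtain ⟨i, rfl⟩ := (mem_Ph P).1 ha
    obtain ⟨j, hj⟩ := (mem_Ph P).1 hc
    have h1 : ∀ k, (rt P j k : ℝ) = c * rt P i k := by
      intro k
      have h2 := congrArg (fun v : EuclideanSpace ℝ ι => v k) hj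
      simpa using h2
    have h2 := h1 i
    have h3 := h1 j
    rw [rt_self] at h2 h3
    have h4 : P.coxeterWeightIn ℤ i j = 4 := by
      have h5 : ((rt P i j * rt P j i : ℤ) : ℝ) = 4 := by
        push_cast at *
        rw [h2]
        linear_combination -2 * h3
      have h6 : rt P i j * rt P j i = 4 := by exact_mod_cast h5
      exact h6
    have h5 : ¬ LinearIndependent K ![P.root i, P.root j] := by
      rw [P.linearIndependent_iff_coxeterWeightIn_ne_four ℤ]
      simpa using h4
    rcases RootPairing.IsReduced.eq_or_eq_neg (P := P) i j h5 with h6 | h6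
    · left
      have h7 : i = j := P.root.injective h6
      subst h7
      rw [rt_self] at h2
      push_cast at h2
      linarith
    · right
      have h7 : rt P i j = -2 := by
        have h8 : ((rt P i j : ℤ) : K) = ((-2 : ℤ) : K) := by
          rw [cast_rt, RootPairing.pairing, RootPairing.root', h6, map_neg, LinearMap.neg_apply]
          change - P.pairing j j = _
          rw [P.pairing_same]
          push_cast
          rfl
        exact_mod_cast h8
      rw [h7] at h3
      push_cast at h3
      linarith
  irr := by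
    intro S hS hne hor
    obtain ⟨s, hs⟩ := hne
    obtain ⟨i0, hi0⟩ := (mem_Ph P).1 (hS hs)
    obtain ⟨q, hq⟩ : ∃ q : Submodule K M, q = Submodule.span K
        {x | ∃ i, vec (rt P i) ∈ S ∧ P.root i = x} := ⟨_, rfl⟩
    have hinner : ∀ i j, vec (rt P i) ∈ S → vec (rt P j) ∉ S → P.pairing i j = 0 := by
      intro i j hi hj
      have h1 := hor _ hi (vec (rt P j)) ((mem_Ph P).2 ⟨j, rfl⟩) hj
      have h2 := co_vec P (wt_rt P i) j
      unfold co at h2
      rw [h1, mul_zero, zero_div] at h2
      rw [← cast_rt]
      have h3 : rt P i j = 0 := by exact_mod_cast h2.symm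
      rw [h3]
      simp
    have htop : q = ⊤ := by
      refine RootPairing.IsIrreducible.eq_top_of_invtSubmodule_reflection (P := P) q ?_ ?_
      · intro j
        rw [Module.End.mem_invtSubmodule]
        rw [hq, Submodule.span_le]
        rintro _ ⟨i, hi, rfl⟩
        rw [← hq]
        change P.reflection j (P.root i) ∈ q
        rw [P.reflection_apply_root]
        have hiq : P.root i ∈ q := by
          rw [hq]
          exact Submodule.subset_span ⟨i, hi, rfl⟩
        by_cases hj : vec (rt P j) ∈ S
        · refine sub_mem hiq (Submodule.smul_mem _ _ ?_)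
          rw [hq]
          exact Submodule.subset_span ⟨j, hj, rfl⟩
        · rw [hinner i j hi hj, zero_smul, sub_zero]
          exact hiq
      · intro h0
        have h1 : P.root i0 ∈ q := by
          rw [hq]
          refine Submodule.subset_span ⟨i0, ?_, rfl⟩
          rw [hi0]
          exact hs
        rw [h0, Submodule.mem_bot] at h1
        exact P.ne_zero i0 h1
    refine Finset.Subset.antisymm hS fun b hb => ?_
    obtain ⟨j, rfl⟩ := (mem_Ph P).1 hb
    by_contra hj
    have h1 : ∀ x ∈ q, P.toLinearMap x (P.coroot j) = 0 := by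
      intro x hx
      rw [hq] at hx
      induction hx using Submodule.span_induction with
      | mem x hx =>
        obtain ⟨i, hi, rfl⟩ := hx
        exact hinner i j hi hj
      | zero => rw [map_zero, LinearMap.zero_apply]
      | add a b _ _ ha hb => rw [map_add, LinearMap.add_apply, ha, hb, add_zero]
      | smul c a _ ha => rw [map_smul, LinearMap.smul_apply, ha, smul_zero]
    have h2 := h1 (P.root j) (by rw [htop]; trivial)
    have h3 : P.pairing j j = 2 := P.pairing_same j
    have h4 : P.pairing j j = 0 := h2
    rw [h4] at h3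
    norm_num at h3

/-- The sum of the absolute values of the pairings with a coroot. -/
theorem qs_eq (i : ι) : qs (Ph P) (vec (rt P i)) = (1 / 4) * ∑ j, |(rt P j i : ℝ)| := by
  classical
  unfold qs Ph
  rw [Finset.sum_image fun a _ b _ hab => rt_inj P (vec_inj hab)]
  congr 1
  refine Finset.sum_congr rfl fun j _ => ?_
  rw [co_vec P (wt_rt P j) i]

end crys

end PF.CC
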