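import Pool.Agent.Helper81.PF.C8
import Pool.Agent.Helper3.PF.Comb
import Pool.Agent.Helper95.PF.TA

/-!
Project PF, block C: the core theorem.
-/

open Module LieModule LieAlgebra LieAlgebra.IsKilling MTP.MF

namespace PF.C

section gen

variable {K : Type*} [Field K] [CharZero K] [IsAlgClosed K]
  {L : Type*} [LieRing L] [LieAlgebra K L] [FiniteDimensional K L] [IsKilling K L]
  {H : LieSubalgebra K L} [H.IsCartanSubalgebra]

theorem toE_eq_vec (α : H.root) : toE (rt α) = PF.CC.vec (PF.CC.rt (rootSystem H) α) := by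
  ext β
  rw [toE_apply, PF.CC.vec_apply, iv_rt]
  rfl

theorem PhiS_eq : PhiS H = PF.CC.Ph (rootSystem H) := by
  ext y
  rw [mem_PhiS, PF.CC.mem_Ph]
  simp only [toE_eq_vec]

end gen

attribute [local instance 100] LieRing.ofAssociativeRing

variable {K : Type*} [Field K] [CharZero K] [IsAlgClosed K] {V : Type*} [AddCommGroup V] [Module K V]
  [FiniteDimensional K V]

/-- **The core theorem.** A simple irreducible Lie algebra of skew endomorphisms of a quadratic space whose
dimension is at most a twenty-fifth of the square of a prime divisor contains all skew endomorphisms, or the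
eigenspaces of all its non-zero diagonalisable elements are lines. -/
theorem core (ω : LinearMap.BilinForm K V) (hsymm : ω.IsSymm) (hnd : ω.Nondegenerate)
    (L : LieSubalgebra K (Module.End K V)) [LieAlgebra.IsSimple K L]
    (hirr : ∀ W : Submodule K V, (∀ x ∈ L, ∀ u ∈ W, x u ∈ W) → W = ⊥ ∨ W = ⊤)
    (hsk : ∀ x ∈ L, ∀ u v, ω (x u) v = -ω u (x v)) {p : ℕ} (hp : p.Prime) (hd : p ∣ finrank K V)
    (h25 : 25 * finrank K V ≤ p ^ 2) :
    (∀ x : Module.End K V, (∀ u v, ω (x u) v = -ω u (x v)) → x ∈ L) ∨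
      ∀ h ∈ L, h ≠ 0 → (⨆ c : K, Module.End.eigenspace h c) = ⊤ → ∀ c : K, finrank K (Module.End.eigenspace h c) ≤ 1 := by
  refine PF.CC.core_of ω hsymm hnd L hirr hsk hp hd h25 ?_ ?_
  · intro hk H hH Φ X hΦ hX hne h25 a x ha hx hb
    exact comb hΦ hX hne h25 ha hx hb
  · intro hk H hH n B hA h hh
    have hne : Nonempty (Fin n) := by
      by_contra hcon
      rw [not_nonempty_iff] at hcon
      apply hh
      apply Subtype.ext
      apply Subtype.ext
      ext u
      have h1 : u = 0 := by
        rw [← B.v.sum_repr u]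
        simp
      rw [h1]
      simp
    have hirr' : ∀ W : Submodule K V, (∀ x : L, ∀ u ∈ W, ⁅x, u⁆ ∈ W) → W = ⊥ ∨ W = ⊤ :=
      fun W hW => hirr W fun z hz w hw => hW ⟨z, hz⟩ w hw
    rw [← PhiS_eq] at hA
    exact (typeA_simple B hirr' hA).2 h hh

end PF.C
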