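import Pool.Agent.Helper81.PF.C2

/-!
Project PF, block C: orthonormal frames of weights.
-/

set_option linter.unusedSectionVars false

open Module

namespace PF.CC

section frame

variable {E : Type*} [NormedAddCommGroup E] [InnerProductSpace ℝ E]

/-- The vectors `± c x_k`. -/
noncomputable def fr {N : ℕ} (x : Fin N → E) (c : ℝ) (p : Fin N × Bool) : E :=
  if p.2 then c • x p.1 else -(c • x p.1)

/-- The opposite index. -/
def opp {N : ℕ} (p : Fin N × Bool) : Fin N × Bool := (p.1, !p.2)

/-- An orthogonal frame such that `X` is the frame, perhaps with zero, and the differences are roots. -/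
structure Fr (Φ X : Finset E) {N : ℕ} (x : Fin N → E) (c : ℝ) : Prop where
  on : Orthonormal ℝ x
  pos : 0 < c
  two : 2 ≤ N
  mem : ∀ p, fr x c p ∈ X
  cases : ∀ y ∈ X, y = 0 ∨ ∃ p, y = fr x c p
  root : ∀ p q, p.1 ≠ q.1 → fr x c p - fr x c q ∈ Φ

variable {N : ℕ} {x : Fin N → E} {c : ℝ}

theorem fr_opp (p : Fin N × Bool) : fr x c (opp p) = - fr x c p := by
  obtain ⟨k, b⟩ := p
  cases b <;> simp [fr, opp]

theorem inner_fr_ne (ho : Orthonormal ℝ x) {p q : Fin N × Bool} (h : p.1 ≠ q.1) :
    inner ℝ (fr x c p) (fr x c q) = (0 : ℝ) := by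
  have h1 : inner ℝ (x p.1) (x q.1) = (0 : ℝ) := ho.2 h
  unfold fr
  split_ifs <;> simp [inner_smul_left, inner_smul_right, h1]

theorem inner_fr_self (ho : Orthonormal ℝ x) (p : Fin N × Bool) :
    inner ℝ (fr x c p) (fr x c p) = c ^ 2 := by
  have h1 : inner ℝ (x p.1) (x p.1) = (1 : ℝ) := by
    rw [real_inner_self_eq_norm_sq, ho.1]
    norm_num
  unfold fr
  split_ifs
  · rw [inner_smul_left, inner_smul_right, h1]
    simp
    ring
  · rw [inner_neg_neg, inner_smul_left, inner_smul_right, h1]
    simp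
    ring

theorem fr_ne_zero (ho : Orthonormal ℝ x) (hc : 0 < c) (p : Fin N × Bool) : fr x c p ≠ 0 := by
  intro h
  have h1 := inner_fr_self (c := c) ho p
  rw [h, inner_zero_left] at h1
  have : 0 < c ^ 2 := by positivity
  linarith

theorem inner_diff (ho : Orthonormal ℝ x) {p q : Fin N × Bool} (h : p.1 ≠ q.1) :
    inner ℝ (fr x c p - fr x c q) (fr x c p - fr x c q) = 2 * c ^ 2 := by
  rw [inner_sub_left, inner_sub_right, inner_sub_right, inner_fr_self ho, inner_fr_self ho,
    inner_fr_ne ho h, inner_fr_ne ho (Ne.symm h)]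
  ring

theorem co_left (ho : Orthonormal ℝ x) (hc : 0 < c) {p q : Fin N × Bool} (h : p.1 ≠ q.1) :
    co (fr x c p - fr x c q) (fr x c p) = 1 := by
  have : c ^ 2 ≠ 0 := by positivity
  unfold co
  rw [inner_diff ho h, inner_sub_right, inner_fr_self ho, inner_fr_ne ho h]
  field_simp
  ring

theorem co_right (ho : Orthonormal ℝ x) (hc : 0 < c) {p q : Fin N × Bool} (h : p.1 ≠ q.1) :
    co (fr x c p - fr x c q) (fr x c q) = -1 := by
  have : c ^ 2 ≠ 0 := by positivity
  unfold co
  rw [inner_diff ho h, inner_sub_right, inner_fr_self ho, inner_fr_ne ho (Ne.symm h)]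
  field_simp
  ring

theorem co_out (ho : Orthonormal ℝ x) {p q r : Fin N × Bool} (h1 : r.1 ≠ p.1)
    (h2 : r.1 ≠ q.1) : co (fr x c p - fr x c q) (fr x c r) = 0 := by
  unfold co
  rw [inner_sub_right, inner_fr_ne ho h1, inner_fr_ne ho h2]
  simp

/-- The coordinate of a vector. -/
noncomputable def cd (x : Fin N → E) (c : ℝ) (y : E) (k : Fin N) : ℝ := inner ℝ y (x k) / c

theorem cd_fr (ho : Orthonormal ℝ x) (hc : 0 < c) (p : Fin N × Bool) (k : Fin N) :
    cd x c (fr x c p) k = if k = p.1 then (if p.2 then 1 else -1) else 0 := by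
  have h1 : inner ℝ (x p.1) (x k) = if k = p.1 then (1 : ℝ) else 0 := by
    have h2 := (orthonormal_iff_ite.1 ho) p.1 k
    rw [h2]
    by_cases h : p.1 = k
    · rw [if_pos h, if_pos h.symm]
    · rw [if_neg h, if_neg (Ne.symm h)]
  unfold cd fr
  split_ifs with h2 h3 h3
  · rw [inner_smul_left, h1, if_pos h3]
    simp [hc.ne']
  · rw [inner_smul_left, h1, if_neg h3]
    simp
  · rw [inner_neg_left, inner_smul_left, h1, if_pos h3]
    simp [hc.ne']
  · rw [inner_neg_left, inner_smul_left, h1, if_neg h3]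
    simp

theorem cd_sub (y z : E) (k : Fin N) : cd x c (y - z) k = cd x c y k - cd x c z k := by
  unfold cd
  rw [inner_sub_left, sub_div]

theorem fr_inj (ho : Orthonormal ℝ x) (hc : 0 < c) {p q : Fin N × Bool}
    (h : fr x c p = fr x c q) : p = q := by
  have h1 := congrArg (fun y => cd x c y p.1) h
  simp only [cd_fr ho hc, if_true] at h1
  by_cases h2 : p.1 = q.1
  · rw [if_pos h2] at h1
    refine Prod.ext h2 ?_
    cases hp : p.2 <;> cases hq : q.2 <;> simp [hp, hq] at h1 ⊢ <;> norm_num at h1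
  · rw [if_neg h2] at h1
    cases hp : p.2 <;> simp [hp] at h1

/-- The index set for the differences. -/
abbrev Dx (N : ℕ) := {p : Fin N × Fin N // p.1 ≠ p.2} × Bool

/-- The differences. -/
noncomputable def dif (x : Fin N → E) (c : ℝ) (d : Dx N) : E :=
  if d.2 then fr x c (d.1.1.1, true) - fr x c (d.1.1.2, true)
  else fr x c (d.1.1.1, decide (d.1.1.1 < d.1.1.2)) - fr x c (d.1.1.2, !decide (d.1.1.1 < d.1.1.2))

theorem card_Dx (N : ℕ) : Fintype.card (Dx N) = 2 * (N * (N - 1)) := by
  rw [Fintype.card_prod, Fintype.card_bool, mul_comm]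
  congr 1
  rw [Fintype.card_subtype]
  have h1 : (Finset.univ.filter fun p : Fin N × Fin N => p.1 ≠ p.2) =
      (Finset.univ : Finset (Fin N)).offDiag := by
    ext p
    simp [Finset.mem_offDiag]
  rw [h1, Finset.offDiag_card, Finset.card_univ, Fintype.card_fin, Nat.mul_sub, mul_one]

/-- The coordinates of a difference. -/
theorem cd_dif (ho : Orthonormal ℝ x) (hc : 0 < c) (d : Dx N) (k : Fin N) :
    cd x c (dif x c d) k = if k = d.1.1.1 then (if d.2 then 1 else
      if d.1.1.1 < d.1.1.2 then 1 else -1) else if k = d.1.1.2 then (if d.2 then -1 else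
      if d.1.1.1 < d.1.1.2 then 1 else -1) else 0 := by
  obtain ⟨⟨⟨k1, k2⟩, hk⟩, b⟩ := d
  change k1 ≠ k2 at hk
  unfold dif
  cases b
  · simp only [Bool.false_eq_true, if_false]
    rw [cd_sub, cd_fr ho hc, cd_fr ho hc]
    by_cases h1 : k = k1
    · subst h1
      simp only [if_true, if_neg hk, sub_zero]
      by_cases h3 : k < k2 <;> simp [h3]
    · by_cases h2 : k = k2
      · subst h2
        simp only [if_neg h1, if_true, zero_sub]
        by_cases h3 : k1 < k <;> simp [h3]
      · simp only [if_neg h1, if_neg h2, sub_zero]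
  · simp only [if_true]
    rw [cd_sub, cd_fr ho hc, cd_fr ho hc]
    by_cases h1 : k = k1
    · subst h1
      simp only [if_true, if_neg hk, sub_zero]
    · by_cases h2 : k = k2
      · subst h2
        simp only [if_neg h1, if_true, zero_sub]
      · simp only [if_neg h1, if_neg h2, sub_zero]

theorem dif_inj (ho : Orthonormal ℝ x) (hc : 0 < c) : Function.Injective (dif x c : Dx N → E) := by
  intro d d' h
  have h0 : ∀ k, cd x c (dif x c d) k = cd x c (dif x c d') k := fun k => by rw [h]
  have h1 := h0 d.1.1.1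
  have h2 := h0 d.1.1.2
  have h3 := h0 d'.1.1.1
  have h4 := h0 d'.1.1.2
  obtain ⟨⟨⟨k1, k2⟩, hk⟩, b⟩ := d
  obtain ⟨⟨⟨l1, l2⟩, hl⟩, b'⟩ := d'
  change k1 ≠ k2 at hk
  change l1 ≠ l2 at hl
  simp only [cd_dif ho hc] at h1 h2 h3 h4
  have hk' := hk.symm
  have hl' := hl.symm
  simp only [if_true, if_neg hk', if_neg hl'] at h1 h2 h3 h4
  have s0 : ∀ (b : Bool) (k l : Fin N), (if b = true then (-1 : ℝ) else if k < l then 1 else -1) ≠ 0 := by
    intro b k l
    split_ifs <;> norm_num
  have s1 : ∀ (b : Bool) (k l : Fin N), (if b = true then (1 : ℝ) else if k < l then 1 else -1) ≠ 0 := by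
    intro b k l
    split_ifs <;> norm_num
  by_cases e1 : k1 = l1
  · subst e1
    have e4 : k2 = l2 := by
      by_contra e4
      rw [if_neg hk', if_neg e4] at h2
      exact s0 _ _ _ h2
    subst e4
    simp only [if_true, if_neg hk'] at h1 h2
    have key : b = b' := by
      cases b <;> cases b' <;> simp only [Bool.false_eq_true, if_true, if_false] at h1 h2 ⊢ <;>
        split_ifs at h1 h2 <;> first | rfl | (norm_num at h1 h2) | (norm_num at h1)
    rw [key]
  · exfalso
    have e2 : k1 = l2 := by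
      by_contra e2
      rw [if_neg e1, if_neg e2] at h1
      exact s1 _ _ _ h1
    subst e2
    have e3 : k2 = l1 := by
      by_contra e3
      rw [if_neg e3, if_neg hk'] at h2
      exact s0 _ _ _ h2
    subst e3
    simp only [if_true, if_neg hk] at h1 h2
    rcases lt_trichotomy k1 k2 with h5 | h5 | h5
    · have h6 : ¬ k2 < k1 := not_lt.2 h5.le
      cases b <;> cases b' <;> simp only [Bool.false_eq_true, if_true, if_false, if_pos h5, if_neg h6] at h1 h2 <;>
        first | (norm_num at h1; done) | (norm_num at h2; done)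
    · exact hk h5
    · have h6 : ¬ k1 < k2 := not_lt.2 h5.le
      cases b <;> cases b' <;> simp only [Bool.false_eq_true, if_true, if_false, if_pos h5, if_neg h6] at h1 h2 <;>
        first | (norm_num at h1; done) | (norm_num at h2; done)

end frame

end PF.CC
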