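import Pool.Agent.Helper81.PF.C3

/-!
Project PF, block C: multiplicities of weights and the dimension of the Lie algebra.
-/

set_option linter.unusedSectionVars false

open Module LieModule LieAlgebra LieAlgebra.IsKilling MTP.MF

namespace PF.CC

variable {K : Type*} [Field K] [CharZero K] [IsAlgClosed K]
  {L : Type*} [LieRing L] [LieAlgebra K L] [FiniteDimensional K L] [IsKilling K L]
  {H : LieSubalgebra K L} [H.IsCartanSubalgebra]
  {V : Type*} [AddCommGroup V] [Module K V] [FiniteDimensional K V]
  [LieRingModule L V] [LieModule K L V] {I : Type*} [Fintype I] (B : WB (V := V) H I)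

/-- The number of roots plus the rank is at most the dimension. -/
theorem card_root_add (H : LieSubalgebra K L) [H.IsCartanSubalgebra] :
    Fintype.card H.root + finrank K H ≤ finrank K L := by
  classical
  have hind : iSupIndep fun χ : H → K => (genWeightSpace L χ).toSubmodule := by
    rw [LieSubmodule.iSupIndep_toSubmodule]
    exact iSupIndep_genWeightSpace K H L
  have hex : ∀ α : H.root, ∃ x : L, x ∈ rootSpace H α.1 ∧ x ≠ 0 := by
    intro α
    obtain ⟨e, f, ht, he, hf⟩ := exists_triple (H := H) α
    exact ⟨e, he, ht.e_ne_zero⟩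
  choose x hx hx0 using hex
  have hinj : Function.Injective fun α : H.root => (α.1 : H → K) := by
    intro α β h
    exact Subtype.ext (DFunLike.coe_injective h)
  have h1 : LinearIndependent K x :=
    iSupIndep.linearIndependent _ (hind.comp hinj) (fun α => hx α) hx0
  have h2 : LinearIndependent K fun k : Fin (finrank K H) => ((finBasis K H k : H) : L) := by
    have := (finBasis K H).linearIndependent.map' H.toSubmodule.subtype (Submodule.ker_subtype _)
    exact this
  have h3 : Disjoint (Submodule.span K (Set.range x))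
      (Submodule.span K (Set.range fun k : Fin (finrank K H) => ((finBasis K H k : H) : L))) := by
    have h4 := (iSupIndep_def.1 hind) 0
    refine Disjoint.mono ?_ ?_ h4.symm
    · rw [Submodule.span_le]
      rintro _ ⟨α, rfl⟩
      have h5 : (α.1 : H → K) ≠ 0 := by
        have := H.isNonZero_coe_root α
        exact this
      exact Submodule.mem_iSup_of_mem (α.1 : H → K) (Submodule.mem_iSup_of_mem h5 (hx α))
    · rw [Submodule.span_le]
      rintro _ ⟨k, rfl⟩
      have h5 : ((finBasis K H k : H) : L) ∈ rootSpace H (0 : H → K) := by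
        rw [LieAlgebra.rootSpace_zero_eq K L H]
        exact (finBasis K H k : H).2
      exact h5
  have h4 := h1.sum_type h2 h3
  have h5 := h4.fintype_card_le_finrank
  rw [Fintype.card_sum, Fintype.card_fin] at h5
  exact h5

/-- The weight of index `i` has multiplicity one. -/
def One (i : I) : Prop := ∀ j, B.w j = B.w i → j = i

theorem IsW.eq_smul {i : I} (h1 : One B i) {u : V} (hu : IsW H (fun h => B.w i h) u) :
    ∃ c : K, u = c • B.v i := by
  refine ⟨B.v.repr u i, ?_⟩
  conv_lhs => rw [← B.v.sum_repr u]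
  refine Finset.sum_eq_single i (fun j _ hj => ?_) (fun h => absurd (Finset.mem_univ _) h)
  by_contra h
  apply hj
  apply h1
  have h2 : B.v.repr u j ≠ 0 := fun h3 => h (by rw [h3, zero_smul])
  ext h
  exact B.coord (hu h) h2

theorem e_inj {α : H.root} {e f : L} (ht : IsSl2Triple ((coroot α.1 : H) : L) e f) {u : V} {m : ℤ}
    (hm : m < 0) (hu : ⁅((coroot α.1 : H) : L), u⁆ = (m : K) • u) (he : ⁅e, u⁆ = 0) : u = 0 := by
  by_contra h0
  have hP : ht.HasPrimitiveVectorWith u (m : K) := ⟨h0, hu, he⟩
  obtain ⟨n, hn⟩ := hP.exists_nat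
  have : m = n := by exact_mod_cast hn
  omega

theorem one_of (α : H.root) {i i' : I} (h : ∀ x : H, B.w i' x = B.w i x - α.1 x) (hn : wt B i' α < 0)
    (h1 : One B i) : One B i' := by
  intro j hj
  by_contra hne
  obtain ⟨e, f, ht, he, hf⟩ := exists_triple (H := H) α
  have hw : ∀ j, B.w j = B.w i' → IsW H (fun h => B.w i h) ⁅e, B.v j⁆ := by
    intro j hj x
    have h2 : IsW H (fun h => B.w j h) (B.v j) := B.lie_v j
    rw [h2.lie he x, hj]
    change (α.1 x + B.w i' x) • ⁅e, B.v j⁆ = B.w i x • ⁅e, B.v j⁆
    rw [h x]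
    congr 1
    ring
  obtain ⟨a, ha⟩ := (hw i' rfl).eq_smul B h1
  obtain ⟨b, hb⟩ := (hw j hj).eq_smul B h1
  have hlie : ∀ j, B.w j = B.w i' → ⁅((coroot α.1 : H) : L), B.v j⁆ = ((wt B i' α : ℤ) : K) • B.v j := by
    intro j hj
    rw [B.lie_v j (coroot α.1), hj, wt_spec]
  have hj0 : b ≠ 0 := by
    rintro rfl
    rw [zero_smul] at hb
    exact B.v.ne_zero j (e_inj ht hn (hlie j hj) hb)
  have h2 : b • B.v i' - a • B.v j = 0 := by
    refine e_inj ht hn ?_ ?_
    · rw [lie_sub, lie_smul, lie_smul, hlie i' rfl, hlie j hj, smul_sub, smul_comm b, smul_comm a]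
    · rw [lie_sub, lie_smul, lie_smul, ha, hb, smul_smul, smul_smul, mul_comm, sub_self]
  have h3 := congrArg (fun u => B.v.repr u i') h2
  simp only [map_sub, map_smul, Finsupp.sub_apply, Finsupp.smul_apply, Basis.repr_self, map_zero,
    Finsupp.zero_apply, Finsupp.single_eq_same, Finsupp.single_eq_of_ne' hne] at h3
  rw [smul_zero, sub_zero, smul_eq_mul, mul_one] at h3
  exact hj0 h3

end PF.CC
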