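import Pool.Agent.Helper81.PF.C4

/-!
Project PF, block C: a module whose weights are an orthogonal frame (and perhaps zero).
-/

set_option linter.unusedSectionVars false

open Module LieModule LieAlgebra LieAlgebra.IsKilling MTP.MF

namespace PF.CC

variable {K : Type*} [Field K] [CharZero K] [IsAlgClosed K]
  {L : Type*} [LieRing L] [LieAlgebra K L] [FiniteDimensional K L] [IsKilling K L]
  {H : LieSubalgebra K L} [H.IsCartanSubalgebra]
  {V : Type*} [AddCommGroup V] [Module K V] [FiniteDimensional K V]
  [LieRingModule L V] [LieModule K L V] {I : Type*} [Fintype I] (B : WB (V := V) H I)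

theorem w_ext {i i' : I} (h : vec (wt B i') = vec (wt B i)) : B.w i' = B.w i := by
  have h1 := vec_inj h
  refine dual_ext fun α => ?_
  rw [wt_spec, wt_spec, h1]

theorem w_sub {i i' : I} {α : H.root}
    (h : vec (wt B i') = vec (wt B i) - vec (rt (rootSystem H) α)) (x : H) :
    B.w i' x = B.w i x - α.1 x := by
  have h1 : wt B i' = wt B i - rt (rootSystem H) α := by
    apply vec_inj
    rw [h, sub_eq_add_neg (wt B i), vec_add, vec_neg, sub_eq_add_neg]
  have h2 : B.w i' = B.w i - (α.1 : Weight K H L).toLinear := by
    refine dual_ext fun β => ?_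
    rw [LinearMap.sub_apply, Weight.toLinear_apply, rt_spec, wt_spec, wt_spec, h1]
    push_cast [Pi.sub_apply]
    rfl
  rw [h2, LinearMap.sub_apply, Weight.toLinear_apply]

theorem w_root {i : I} {α : H.root} (h : vec (wt B i) = vec (rt (rootSystem H) α)) (x : H) :
    B.w i x = α.1 x := by
  have h1 : wt B i = rt (rootSystem H) α := vec_inj h
  have h2 : B.w i = (α.1 : Weight K H L).toLinear := by
    refine dual_ext fun β => ?_
    rw [Weight.toLinear_apply, rt_spec, wt_spec, h1]
  rw [h2, Weight.toLinear_apply]

theorem vec_of_root {i : I} {α : H.root} (h : ∀ x, B.w i x = α.1 x) :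
    vec (wt B i) = vec (rt (rootSystem H) α) := by
  congr 1
  funext β
  have h1 : ((wt B i β : ℤ) : K) = (rt (rootSystem H) α β : K) := by
    rw [← wt_spec, ← rt_spec, h]
  exact_mod_cast h1

theorem root_ext {α β γ : H.root} (h : vec (rt (rootSystem H) γ) =
    vec (rt (rootSystem H) α) + vec (rt (rootSystem H) β)) (x : H) : γ.1 x = α.1 x + β.1 x := by
  have h1 : rt (rootSystem H) γ = rt (rootSystem H) α + rt (rootSystem H) β := by
    apply vec_inj
    rw [h, vec_add]
  have h2 : (γ.1 : Weight K H L).toLinear = (α.1 : Weight K H L).toLinear + (β.1 : Weight K H L).toLinear := by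
    refine dual_ext fun δ => ?_
    rw [LinearMap.add_apply, Weight.toLinear_apply, Weight.toLinear_apply, Weight.toLinear_apply, rt_spec,
      rt_spec, rt_spec, h1]
    push_cast [Pi.add_apply]
    rfl
  have h3 := congrArg (fun φ : Dual K H => φ x) h2
  simpa using h3

section frame

variable {N : ℕ} {x : Fin N → EuclideanSpace ℝ H.root} {c : ℝ}

variable (hfr : Fr (Ph (rootSystem H)) (Xw B) x c)

include hfr

theorem exists_ix (p : Fin N × Bool) : ∃ i, vec (wt B i) = fr x c p := (mem_Xw B).1 (hfr.mem p)

theorem exists_rt {p q : Fin N × Bool} (h : p.1 ≠ q.1) :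
    ∃ α : H.root, vec (rt (rootSystem H) α) = fr x c p - fr x c q :=
  (mem_Ph _).1 (hfr.root p q h)

theorem wt_left {p q : Fin N × Bool} (h : p.1 ≠ q.1) {α : H.root}
    (hα : vec (rt (rootSystem H) α) = fr x c p - fr x c q) {i : I} (hi : vec (wt B i) = fr x c p) :
    wt B i α = 1 := by
  have h1 := co_vec _ (wt_wt B i) α
  rw [hα, hi, co_left hfr.on hfr.pos h] at h1
  exact_mod_cast h1.symm

theorem wt_right {p q : Fin N × Bool} (h : p.1 ≠ q.1) {α : H.root}
    (hα : vec (rt (rootSystem H) α) = fr x c p - fr x c q) {i : I} (hi : vec (wt B i) = fr x c q) :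
    wt B i α = -1 := by
  have h1 := co_vec _ (wt_wt B i) α
  rw [hα, hi, co_right hfr.on hfr.pos h] at h1
  exact_mod_cast h1.symm

theorem wt_out {p q r : Fin N × Bool} {α : H.root}
    (hα : vec (rt (rootSystem H) α) = fr x c p - fr x c q) {i : I} (hi : vec (wt B i) = fr x c r)
    (h1 : r.1 ≠ p.1) (h2 : r.1 ≠ q.1) :
    wt B i α = 0 := by
  have h3 := co_vec _ (wt_wt B i) α
  rw [hα, hi, co_out hfr.on h1 h2] at h3
  exact_mod_cast h3.symm

/-- The rank is at least `N`. -/
theorem le_rank : N ≤ finrank K H := by
  classical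
  have h1 : ∀ k : Fin N, ∃ i, vec (wt B i) = fr x c (k, true) := fun k => exists_ix B hfr (k, true)
  choose ix hix using h1
  have h2 : LinearIndependent K fun k => B.w (ix k) := by
    rw [Fintype.linearIndependent_iff]
    intro g hg k
    obtain ⟨l, hl⟩ : ∃ l : Fin N, l ≠ k := by
      have h3 : 1 < Fintype.card (Fin N) := by
        rw [Fintype.card_fin]
        exact hfr.two
      exact Fintype.exists_ne_of_one_lt_card h3 k
    obtain ⟨α, hα⟩ := exists_rt B hfr (p := (k, true)) (q := (l, true)) (Ne.symm hl)
    obtain ⟨β, hβ⟩ := exists_rt B hfr (p := (k, true)) (q := (l, false)) (Ne.symm hl)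
    have h3 := congrArg (fun φ : Dual K H => φ (coroot α.1)) hg
    have h4 := congrArg (fun φ : Dual K H => φ (coroot β.1)) hg
    simp only [LinearMap.sum_apply, LinearMap.smul_apply, wt_spec, smul_eq_mul, LinearMap.zero_apply] at h3 h4
    have e1 : ∀ m, (wt B (ix m) α : K) = if m = k then 1 else if m = l then -1 else 0 := by
      intro m
      split_ifs with h5 h6
      · subst h5
        rw [wt_left B hfr (Ne.symm hl) hα (hix _)]
        simp
      · subst h6
        rw [wt_right B hfr (Ne.symm hl) hα (hix _)]
        simp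
      · rw [wt_out B hfr hα (hix m) h5 h6]
        simp
    have hopp : ∀ m, vec (wt B (ix m)) = -fr x c (m, false) := by
      intro m
      rw [hix, ← fr_opp]
      rfl
    have e2 : ∀ m, (wt B (ix m) β : K) = if m = k then 1 else if m = l then 1 else 0 := by
      intro m
      split_ifs with h5 h6
      · subst h5
        rw [wt_left B hfr (Ne.symm hl) hβ (hix _)]
        simp
      · subst h6
        have h7 := co_vec _ (wt_wt B (ix m)) β
        have h8 : co (vec (rt (rootSystem H) β)) (vec (wt B (ix m))) =
            - co (vec (rt (rootSystem H) β)) (fr x c (m, false)) := by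
          rw [hopp]
          unfold co
          rw [inner_neg_left]
          ring
        rw [h8, hβ, co_right hfr.on hfr.pos (Ne.symm hl)] at h7
        have h9 : wt B (ix m) β = 1 := by
          have : ((wt B (ix m) β : ℤ) : ℝ) = 1 := by
            rw [← h7]
            norm_num
          exact_mod_cast this
        rw [h9]
        simp
      · rw [wt_out B hfr hβ (hix m) h5 h6]
        simp
    have h5 : ∑ m, g m * (wt B (ix m) α + wt B (ix m) β : K) = 0 := by
      simp only [mul_add, Finset.sum_add_distrib]
      rw [h3, h4, add_zero]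
    rw [Finset.sum_eq_single k] at h5
    · rw [e1, e2, if_pos rfl, if_pos rfl] at h5
      have h6 : g k * 2 = 0 := by
        rw [← h5]
        ring
      rcases mul_eq_zero.1 h6 with h7 | h7
      · exact h7
      · exact absurd h7 two_ne_zero
    · intro m _ hm
      rw [e1, e2, if_neg hm, if_neg hm]
      split_ifs <;> ring
    · intro h
      exact absurd (Finset.mem_univ _) h
  have h3 := h2.fintype_card_le_finrank
  rw [Fintype.card_fin, Subspace.dual_finrank_eq] at h3
  exact h3

/-- The number of roots is at least `2 N (N - 1)`. -/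
theorem le_card : 2 * (N * (N - 1)) ≤ Fintype.card H.root := by
  classical
  have h1 : ∀ d : Dx N, ∃ α : H.root, vec (rt (rootSystem H) α) = dif x c d := by
    rintro ⟨⟨⟨k, l⟩, hkl⟩, b⟩
    unfold dif
    cases b
    · simp only [Bool.false_eq_true, if_false]
      exact exists_rt B hfr (p := (k, decide (k < l))) (q := (l, !decide (k < l))) hkl
    · simp only [if_true]
      exact exists_rt B hfr (p := (k, true)) (q := (l, true)) hkl
  choose g hg using h1
  have h2 : Function.Injective g := by
    intro d d' h
    apply dif_inj hfr.on hfr.pos (x := x) (c := c)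
    rw [← hg, ← hg, h]
  have h3 := Fintype.card_le_of_injective g h2
  rw [card_Dx] at h3
  exact h3

/-- If also the vectors of the frame are roots, the number of roots is at least `2 N (N - 1) + 2 N`. -/
theorem le_card' (hB : ∀ p, fr x c p ∈ Ph (rootSystem H)) : 2 * (N * (N - 1)) + 2 * N ≤ Fintype.card H.root := by
  classical
  have h1 : ∀ d : Dx N, ∃ α : H.root, vec (rt (rootSystem H) α) = dif x c d := by
    rintro ⟨⟨⟨k, l⟩, hkl⟩, b⟩
    unfold dif
    cases b
    · simp only [Bool.false_eq_true, if_false]
      exact exists_rt B hfr (p := (k, decide (k < l))) (q := (l, !decide (k < l))) hkl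
    · simp only [if_true]
      exact exists_rt B hfr (p := (k, true)) (q := (l, true)) hkl
  choose g hg using h1
  have h1' : ∀ p : Fin N × Bool, ∃ α : H.root, vec (rt (rootSystem H) α) = fr x c p :=
    fun p => (mem_Ph _).1 (hB p)
  choose g' hg' using h1'
  have h2 : Function.Injective (Sum.elim g g') := by
    have h0 : ∀ d p, dif x c d ≠ fr x c p := by
      intro d p h
      have h3 := fun k => congrArg (fun y => cd x c y k) h
      simp only [cd_dif hfr.on hfr.pos, cd_fr hfr.on hfr.pos] at h3
      have h4 := h3 d.1.1.1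
      have h5 := h3 d.1.1.2
      have h6 : d.1.1.1 ≠ d.1.1.2 := d.1.2
      rw [if_pos rfl] at h4
      rw [if_neg (Ne.symm h6), if_pos rfl] at h5
      by_cases h7 : d.1.1.1 = p.1
      · rw [if_neg (fun h8 : d.1.1.2 = p.1 => h6 (h7.trans h8.symm))] at h5
        split_ifs at h5 <;> norm_num at h5
      · rw [if_neg h7] at h4
        split_ifs at h4 <;> norm_num at h4
    rintro (d | p) (d' | p') h
    · congr 1
      apply dif_inj hfr.on hfr.pos (x := x) (c := c)
      rw [← hg, ← hg]
      exact congrArg (fun α => vec (rt (rootSystem H) α)) h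
    · exfalso
      apply h0 d p'
      rw [← hg, ← hg']
      exact congrArg (fun α => vec (rt (rootSystem H) α)) h
    · exfalso
      apply h0 d' p
      rw [← hg, ← hg']
      exact congrArg (fun α => vec (rt (rootSystem H) α)) h.symm
    · congr 1
      apply fr_inj hfr.on hfr.pos (x := x) (c := c)
      rw [← hg', ← hg']
      exact congrArg (fun α => vec (rt (rootSystem H) α)) h
  have h3 := Fintype.card_le_of_injective _ h2
  rw [Fintype.card_sum, card_Dx, Fintype.card_prod, Fintype.card_fin, Fintype.card_bool] at h3
  omega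

/-- The multiplicity of a vector of the frame is one if it is one for another. -/
theorem one_step {p q : Fin N × Bool} (h : p.1 ≠ q.1) (hp : ∀ i, vec (wt B i) = fr x c p → One B i) (i : I)
    (hi : vec (wt B i) = fr x c q) : One B i := by
  obtain ⟨j, hj⟩ := exists_ix B hfr p
  obtain ⟨α, hα⟩ := exists_rt B hfr h
  refine one_of B α (i := j) (fun y => w_sub B ?_ y) ?_ (hp j hj)
  · rw [hi, hj, hα]
    abel
  · rw [wt_right B hfr h hα hi]
    norm_num

theorem one_all {p : Fin N × Bool} (hp : ∀ i, vec (wt B i) = fr x c p → One B i) (q : Fin N × Bool) (i : I)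
    (hi : vec (wt B i) = fr x c q) : One B i := by
  by_cases h : p.1 = q.1
  · obtain ⟨l, hl⟩ : ∃ l : Fin N, l ≠ p.1 := by
      have h3 : 1 < Fintype.card (Fin N) := by
        rw [Fintype.card_fin]
        exact hfr.two
      exact Fintype.exists_ne_of_one_lt_card h3 p.1
    refine one_step B hfr (p := (l, true)) (q := q) (fun h4 => hl (h4.trans h.symm)) ?_ i hi
    exact one_step B hfr (p := p) (q := (l, true)) (Ne.symm hl) hp
  · exact one_step B hfr h hp i hi

end frame

end PF.CC
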