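import Pool.Agent.Helper81.PF.C5

/-!
Project PF, block C: in the types B and D the dimension of the Lie algebra is at least the dimension of the
orthogonal Lie algebra.
-/

set_option linter.unusedSectionVars false

open Module LieModule LieAlgebra LieAlgebra.IsKilling MTP.MF

namespace PF.CC

variable {K : Type*} [Field K] [CharZero K] [IsAlgClosed K]
  {L : Type*} [LieRing L] [LieAlgebra K L] [FiniteDimensional K L] [IsKilling K L]
  {H : LieSubalgebra K L} [H.IsCartanSubalgebra]
  {V : Type*} [AddCommGroup V] [Module K V] [FiniteDimensional K V]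
  [LieRingModule L V] [LieModule K L V] {I : Type*} [Fintype I] (B : WB (V := V) H I)
  {ω : LinearMap.BilinForm K V}

theorem w_zero {i : I} (h : vec (wt B i) = 0) : B.w i = 0 := by
  have h1 : wt B i = 0 := by
    apply vec_inj
    rw [h, vec_zero]
  refine dual_ext fun α => ?_
  rw [wt_spec, h1]
  simp

/-- The highest weight: it has multiplicity one and is not zero. -/
theorem exists_one (hirr : ∀ W : Submodule K V, (∀ x : L, ∀ u ∈ W, ⁅x, u⁆ ∈ W) → W = ⊥ ∨ W = ⊤)
    (hnd : ω.Nondegenerate) (hsk : ∀ (x : L) (u v : V), ω ⁅x, u⁆ v = - ω u ⁅x, v⁆)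
    (hI : 1 < Fintype.card I) : ∃ t, One B t ∧ vec (wt B t) ≠ 0 := by
  obtain ⟨b⟩ := RootPairing.nonempty_base (rootSystem H)
  obtain ⟨c, hc, -⟩ := exists_int B hirr hnd hsk b
  have hne : Nonempty I := Fintype.card_pos_iff.1 (by omega)
  obtain ⟨t, ht⟩ := Finite.exists_max c
  have hu := top_unique B hirr b hc ht
  refine ⟨t, fun j hj => hu j ?_, fun h0 => ?_⟩
  · have h1 : ((c j : ℤ) : K) = c t := by rw [← hc, ← hc, hj]
    exact_mod_cast h1
  · have h1 := w_zero B h0
    have h2 : c t = 0 := by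
      have h3 : ((c t : ℤ) : K) = 0 := by rw [← hc, h1, LinearMap.zero_apply]
      exact_mod_cast h3
    have h3 : ∀ j, j = t := by
      intro j
      obtain ⟨j', hj'⟩ := exists_neg B hnd hsk j
      have h4 : c j' = - c j := by
        have h5 : ((c j' : ℤ) : K) = ((-c j : ℤ) : K) := by
          rw [← hc, hj']
          push_cast
          rw [← hc]
          rfl
        exact_mod_cast h5
      have h5 := ht j
      have h6 := ht j'
      exact hu j (by omega)
    have h4 : Fintype.card I ≤ 1 := Fintype.card_le_one_iff.2 fun i j => (h3 i).trans (h3 j).symm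
    omega

section frame

variable {N : ℕ} {x : Fin N → EuclideanSpace ℝ H.root} {c : ℝ}

variable (hfr : Fr (Ph (rootSystem H)) (Xw B) x c)

include hfr

theorem fr_sub_ne {p q : Fin N × Bool} (h : p.1 ≠ q.1) (i : I) : vec (wt B i) ≠ fr x c p - fr x c q := by
  intro h1
  have h2 := hfr.cases _ ((mem_Xw B).2 ⟨i, rfl⟩)
  rw [h1] at h2
  have e1 : cd x c (fr x c p - fr x c q) p.1 ≠ 0 := by
    rw [cd_sub, cd_fr hfr.on hfr.pos, cd_fr hfr.on hfr.pos, if_pos rfl, if_neg h]
    split_ifs <;> norm_num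
  have e2 : cd x c (fr x c p - fr x c q) q.1 ≠ 0 := by
    rw [cd_sub, cd_fr hfr.on hfr.pos, cd_fr hfr.on hfr.pos, if_neg (Ne.symm h), if_pos rfl]
    split_ifs <;> norm_num
  rcases h2 with h2 | ⟨r, h2⟩
  · rw [h2] at e1
    apply e1
    unfold cd
    rw [inner_zero_left, zero_div]
  · rw [h2, cd_fr hfr.on hfr.pos] at e1 e2
    have h3 : p.1 = r.1 := by
      by_contra h3
      rw [if_neg h3] at e1
      exact e1 rfl
    have h4 : q.1 = r.1 := by
      by_contra h4
      rw [if_neg h4] at e2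
      exact e2 rfl
    exact h (h3.trans h4.symm)

theorem kill_sub {p q : Fin N × Bool} (h : p.1 ≠ q.1) {u : V} (hu : IsW H (fun _ => (0 : K)) u) {β : H.root}
    (hβ : vec (rt (rootSystem H) β) = fr x c p - fr x c q) {z : L} (hz : z ∈ rootSpace H β.1) :
    ⁅z, u⁆ = 0 := by
  by_contra h0
  obtain ⟨i, hi⟩ := (hu.lie hz).index B h0
  refine fr_sub_ne B hfr h i ?_
  rw [← hβ]
  exact vec_of_root B fun y => by rw [hi y, add_zero]

theorem kill_step (hB : ∀ p, fr x c p ∈ Ph (rootSystem H)) {p q : Fin N × Bool} (h : p.1 ≠ q.1) {u : V}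
    (hu : IsW H (fun _ => (0 : K)) u)
    (hp : ∀ α : H.root, vec (rt (rootSystem H) α) = fr x c p → ∀ z ∈ rootSpace H α.1, ⁅z, u⁆ = 0)
    (β : H.root) (hβ : vec (rt (rootSystem H) β) = fr x c q) (z : L) (hz : z ∈ rootSpace H β.1) :
    ⁅z, u⁆ = 0 := by
  obtain ⟨γ, hγ⟩ := exists_rt B hfr h
  obtain ⟨e, f, ht, he, hf⟩ := exists_triple (H := H) γ
  obtain ⟨i, hi⟩ := exists_ix B hfr q
  obtain ⟨α, hα⟩ := (mem_Ph _).1 (hB p)
  have h1 : wt B i γ = -1 := wt_right B hfr h hγ hi
  have h2 : wt B i = rt (rootSystem H) β := vec_inj (by rw [hi, hβ])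
  refine e_inj ht (m := -1) (by norm_num) ?_ ?_
  · have h3 : ⁅((coroot γ.1 : H) : L), ⁅z, u⁆⁆ = (β.1 (coroot γ.1) + 0) • ⁅z, u⁆ := (hu.lie hz) (coroot γ.1)
    rw [h3, rt_spec, ← h2, h1, add_zero]
  · rw [leibniz_lie, kill_sub B hfr h hu hγ he, lie_zero, add_zero]
    refine hp α hα _ ?_
    have h3 : ⁅e, z⁆ ∈ rootSpace H ((γ.1 : H → K) + (β.1 : H → K)) :=
      lie_mem_genWeightSpace_of_mem_genWeightSpace he hz
    have h4 : (α.1 : H → K) = (γ.1 : H → K) + (β.1 : H → K) := by
      funext y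
      refine root_ext (γ := α) (α := γ) (β := β) ?_ y
      rw [hα, hγ, hβ]
      abel
    rw [h4]
    exact h3

/-- In type B zero has multiplicity at most one. -/
theorem zero_one (hB : ∀ p, fr x c p ∈ Ph (rootSystem H))
    (hB' : ∀ y ∈ Ph (rootSystem H), (∃ p, y = fr x c p) ∨ ∃ p q, p.1 ≠ q.1 ∧ y = fr x c p - fr x c q)
    (hone : ∀ p i, vec (wt B i) = fr x c p → One B i)
    (hirr : ∀ W : Submodule K V, (∀ x : L, ∀ u ∈ W, ⁅x, u⁆ ∈ W) → W = ⊥ ∨ W = ⊤) {i j : I}
    (hi : vec (wt B i) = 0) (hj : vec (wt B j) = 0) : i = j := by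
  classical
  by_contra hne
  have hN : 0 < N := by
    have := hfr.two
    omega
  obtain ⟨p0, hp0⟩ : ∃ p0 : Fin N × Bool, p0 = (⟨0, hN⟩, true) := ⟨_, rfl⟩
  obtain ⟨α, hα⟩ := (mem_Ph _).1 (hB p0)
  obtain ⟨e, f, ht, he, hf⟩ := exists_triple (H := H) α
  obtain ⟨k, hk⟩ := exists_ix B hfr p0
  have hk1 := hone p0 k hk
  have hz : ∀ i, vec (wt B i) = 0 → IsW H (fun _ => (0 : K)) (B.v i) := by
    intro i hi y
    rw [B.lie_v, w_zero B hi, LinearMap.zero_apply]
  have hw : ∀ i, vec (wt B i) = 0 → ∃ a : K, ⁅e, B.v i⁆ = a • B.v k := by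
    intro i hi
    refine IsW.eq_smul B hk1 (fun y => ?_)
    have h1 := (hz i hi).lie he y
    rw [h1]
    congr 1
    change α.1 y + 0 = B.w k y
    rw [add_zero]
    exact (w_root B (by rw [hk, hα]) y).symm
  obtain ⟨a, ha⟩ := hw i hi
  obtain ⟨b, hb⟩ := hw j hj
  obtain ⟨u, hu0, hu, heu⟩ : ∃ u : V, u ≠ 0 ∧ IsW H (fun _ => (0 : K)) u ∧ ⁅e, u⁆ = 0 := by
    by_cases hb0 : b = 0
    · exact ⟨B.v j, B.v.ne_zero j, hz j hj, by rw [hb, hb0, zero_smul]⟩
    · refine ⟨b • B.v i - a • B.v j, fun h2 => ?_, fun y => ?_, ?_⟩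
      · have h3 := congrArg (fun u => B.v.repr u i) h2
        simp only [map_sub, map_smul, Finsupp.sub_apply, Finsupp.smul_apply, Basis.repr_self, map_zero,
          Finsupp.zero_apply, Finsupp.single_eq_same, Finsupp.single_eq_of_ne' (Ne.symm hne)] at h3
        rw [smul_zero, sub_zero, smul_eq_mul, mul_one] at h3
        exact hb0 h3
      · rw [lie_sub, lie_smul, lie_smul, hz i hi y, hz j hj y]
        simp
      · rw [lie_sub, lie_smul, lie_smul, ha, hb, smul_smul, smul_smul, mul_comm, sub_self]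
  have hk0 : ∀ α' : H.root, vec (rt (rootSystem H) α') = fr x c p0 → ∀ z ∈ rootSpace H α'.1, ⁅z, u⁆ = 0 := by
    intro α' hα' z hz'
    have h1 : α' = α := Subtype.ext (Weight.ext fun y => by
      rw [← w_root B (hk.trans hα'.symm) y, ← w_root B (hk.trans hα.symm) y])
    subst h1
    obtain ⟨r, rfl⟩ := mem_line he ht.e_ne_zero hz'
    rw [smul_lie, heu, smul_zero]
  have hall : ∀ q : Fin N × Bool, ∀ α' : H.root, vec (rt (rootSystem H) α') = fr x c q →
      ∀ z ∈ rootSpace H α'.1, ⁅z, u⁆ = 0 := by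
    intro q
    by_cases h : p0.1 = q.1
    · obtain ⟨l, hl⟩ : ∃ l : Fin N, l ≠ p0.1 := by
        have h3 : 1 < Fintype.card (Fin N) := by
          rw [Fintype.card_fin]
          exact hfr.two
        exact Fintype.exists_ne_of_one_lt_card h3 p0.1
      refine kill_step B hfr hB (p := (l, true)) (q := q) (fun h4 => hl (h4.trans h.symm)) hu ?_
      exact kill_step B hfr hB (p := p0) (q := (l, true)) (Ne.symm hl) hu hk0
    · exact kill_step B hfr hB h hu hk0
  have hkill : ∀ z : L, ⁅z, u⁆ = 0 := by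
    intro z
    let U : Submodule K L :=
      { carrier := {x | ⁅x, u⁆ = 0}
        add_mem' := by
          intro a b ha hb
          simp only [Set.mem_ofPred_eq, add_lie] at *
          rw [ha, hb, add_zero]
        zero_mem' := by simp
        smul_mem' := by
          intro c a ha
          simp only [Set.mem_ofPred_eq, smul_lie] at *
          rw [ha, smul_zero] }
    refine root_induction (U := U) (H := H) ?_ z
    intro β z hz'
    change ⁅z, u⁆ = 0
    by_cases hβ : β.IsZero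
    · have hzH : z ∈ H := by
        rw [hβ.eq] at hz'
        rwa [rootSpace_zero_eq, LieSubalgebra.mem_toLieSubmodule] at hz'
      have h1 : ⁅z, u⁆ = (0 : K) • u := hu ⟨z, hzH⟩
      rw [h1, zero_smul]
    · have hβ' : β ∈ H.root := by simpa [LieSubalgebra.root] using hβ
      rcases hB' _ ((mem_Ph _).2 ⟨⟨β, hβ'⟩, rfl⟩) with ⟨p, hp⟩ | ⟨p, q, hpq, hp⟩
      · exact hall p ⟨β, hβ'⟩ hp z hz'
      · exact kill_sub B hfr hpq hu hp hz'
  have hspan : Submodule.span K {u} = ⊤ := by
    rcases hirr (Submodule.span K {u}) (by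
      intro z w hw
      obtain ⟨r, rfl⟩ := Submodule.mem_span_singleton.1 hw
      rw [lie_smul, hkill, smul_zero]
      exact zero_mem _) with h | h
    · exact absurd (Submodule.span_singleton_eq_bot.1 h) hu0
    · exact h
  have h1 : finrank K V = 1 := by
    rw [← finrank_top, ← hspan]
    exact finrank_span_singleton hu0
  rw [finrank_eq_card_basis B.v] at h1
  exact hne ((Fintype.card_le_one_iff.1 h1.le) i j)

theorem card_le_D (h0 : ∀ i, vec (wt B i) ≠ 0) (hone : ∀ p i, vec (wt B i) = fr x c p → One B i) :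
    Fintype.card I ≤ 2 * N := by
  have h1 : ∀ i, ∃ p, vec (wt B i) = fr x c p := by
    intro i
    rcases hfr.cases _ ((mem_Xw B).2 ⟨i, rfl⟩) with h | h
    · exact absurd h (h0 i)
    · exact h
  choose g hg using h1
  have h2 : Function.Injective g := by
    intro i j hij
    have h3 : vec (wt B i) = vec (wt B j) := by rw [hg, hg, hij]
    exact hone (g j) j (hg j) i (w_ext B h3)
  have h3 := Fintype.card_le_of_injective g h2
  rw [Fintype.card_prod, Fintype.card_fin, Fintype.card_bool] at h3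
  omega

theorem card_le_B (hz : ∀ i j, vec (wt B i) = 0 → vec (wt B j) = 0 → i = j)
    (hone : ∀ p i, vec (wt B i) = fr x c p → One B i) : Fintype.card I ≤ 2 * N + 1 := by
  have h1 : ∀ i, ∃ p : Option (Fin N × Bool), vec (wt B i) = p.elim 0 (fr x c) := by
    intro i
    rcases hfr.cases _ ((mem_Xw B).2 ⟨i, rfl⟩) with h | ⟨p, h⟩
    · exact ⟨none, h⟩
    · exact ⟨some p, h⟩
  choose g hg using h1
  have h2 : Function.Injective g := by
    intro i j hij
    have h3 : vec (wt B i) = vec (wt B j) := by rw [hg, hg, hij]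
    rcases hj : g j with _ | p
    · have h4 : vec (wt B j) = 0 := by rw [hg, hj]; rfl
      exact hz i j (h3.trans h4) h4
    · have h4 : vec (wt B j) = fr x c p := by rw [hg, hj]; rfl
      exact hone p j h4 i (w_ext B h3)
  have h3 := Fintype.card_le_of_injective g h2
  rw [Fintype.card_option, Fintype.card_prod, Fintype.card_fin, Fintype.card_bool] at h3
  omega

end frame

/-- The frame of a configuration of type B. -/
theorem fr_B {E : Type*} [NormedAddCommGroup E] [InnerProductSpace ℝ E] {Φ X : Finset E} (h : TypeB Φ X)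
    (hne : Φ.Nonempty) : TypeA Φ ∨ ∃ (N : ℕ) (x : Fin N → E) (c : ℝ), Fr Φ X x c ∧ (∀ p, fr x c p ∈ Φ) ∧
      ∀ y ∈ Φ, (∃ p, y = fr x c p) ∨ ∃ p q, p.1 ≠ q.1 ∧ y = fr x c p - fr x c q := by
  obtain ⟨N, x, ho, c, hc, hX, hΦ⟩ := h
  by_cases hN : 2 ≤ N
  · right
    have hB' : ∀ y ∈ Φ, (∃ p, y = fr x c p) ∨ ∃ p q, p.1 ≠ q.1 ∧ y = fr x c p - fr x c q := by
      intro y hy
      rcases (hΦ y).1 hy with ⟨i, h | h⟩ | ⟨i, j, hij, h | h | h⟩
      · left
        exact ⟨(i, true), by rw [h]; simp [fr]⟩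
      · left
        exact ⟨(i, false), by rw [h]; simp [fr]⟩
      · right
        refine ⟨(i, true), (j, false), hij, ?_⟩
        rw [h]
        simp [fr]
      · right
        refine ⟨(i, true), (j, true), hij, ?_⟩
        rw [h]
        simp [fr, smul_sub]
      · right
        refine ⟨(i, false), (j, true), hij, ?_⟩
        rw [h]
        simp [fr]
        abel
    refine ⟨N, x, c, ⟨ho, hc, hN, ?_, ?_, ?_⟩, ?_, hB'⟩
    · rintro ⟨k, b⟩
      rw [hX]
      right
      refine ⟨k, ?_⟩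
      cases b
      · right; simp [fr]
      · left; simp [fr]
    · intro y hy
      rcases (hX y).1 hy with h | ⟨i, h | h⟩
      · exact Or.inl h
      · exact Or.inr ⟨(i, true), by rw [h]; simp [fr]⟩
      · exact Or.inr ⟨(i, false), by rw [h]; simp [fr]⟩
    · rintro ⟨k, b⟩ ⟨l, b'⟩ hkl
      change k ≠ l at hkl
      rw [hΦ]
      right
      cases b <;> cases b'
      · refine ⟨l, k, hkl.symm, Or.inr (Or.inl ?_)⟩
        simp [fr, smul_sub]
        abel
      · refine ⟨k, l, hkl, Or.inr (Or.inr ?_)⟩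
        simp [fr]
        abel
      · refine ⟨k, l, hkl, Or.inl ?_⟩
        simp [fr]
      · refine ⟨k, l, hkl, Or.inr (Or.inl ?_)⟩
        simp [fr, smul_sub]
    · rintro ⟨k, b⟩
      rw [hΦ]
      left
      refine ⟨k, ?_⟩
      cases b
      · right; simp [fr]
      · left; simp [fr]
  · left
    have hN1 : N = 1 := by
      by_contra h1
      have h0 : N = 0 := by omega
      subst h0
      obtain ⟨y, hy⟩ := hne
      rcases (hΦ y).1 hy with ⟨i, -⟩ | ⟨i, -⟩
      · exact i.elim0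
      · exact i.elim0
    subst hN1
    refine ⟨c • x 0, fun y => ?_⟩
    rw [hΦ]
    constructor
    · rintro (⟨i, h⟩ | ⟨i, j, hij, -⟩)
      · rw [Subsingleton.elim i 0] at h
        exact h
      · exact absurd (Subsingleton.elim i j) hij
    · intro h
      exact Or.inl ⟨0, h⟩

/-- The frame of a configuration of type D. -/
theorem fr_D {E : Type*} [NormedAddCommGroup E] [InnerProductSpace ℝ E] {Φ X : Finset E} (h : TypeD Φ X) :
    (0 : E) ∉ X ∧ ∃ (N : ℕ) (x : Fin N → E) (c : ℝ), 3 ≤ N ∧ Fr Φ X x c := by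
  obtain ⟨N, x, ho, c, hc, hN, hX, hΦ⟩ := h
  have hne : ∀ i, c • x i ≠ 0 := fun i => smul_ne_zero hc.ne' (ho.ne_zero i)
  refine ⟨fun h0 => ?_, N, x, c, hN, ho, hc, by omega, ?_, ?_, ?_⟩
  · obtain ⟨i, h | h⟩ := (hX 0).1 h0
    · exact hne i h.symm
    · exact hne i (neg_eq_zero.1 h.symm)
  · rintro ⟨k, b⟩
    rw [hX]
    refine ⟨k, ?_⟩
    cases b
    · right; simp [fr]
    · left; simp [fr]
  · intro y hy
    obtain ⟨i, h | h⟩ := (hX y).1 hy
    · exact Or.inr ⟨(i, true), by rw [h]; simp [fr]⟩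
    · exact Or.inr ⟨(i, false), by rw [h]; simp [fr]⟩
  · rintro ⟨k, b⟩ ⟨l, b'⟩ hkl
    change k ≠ l at hkl
    obtain ⟨h1, h2, h3⟩ := hΦ k l hkl
    obtain ⟨h4, h5, h6⟩ := hΦ l k hkl.symm
    cases b <;> cases b'
    · have e : fr x c (k, false) - fr x c (l, false) = c • (x l - x k) := by
        simp [fr, smul_sub]
        abel
      rw [e]
      exact h5
    · have e : fr x c (k, false) - fr x c (l, true) = -(c • (x k + x l)) := by
        simp [fr]
        abel
      rw [e]
      exact h3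
    · have e : fr x c (k, true) - fr x c (l, false) = c • (x k + x l) := by
        simp [fr]
      rw [e]
      exact h1
    · have e : fr x c (k, true) - fr x c (l, true) = c • (x k - x l) := by
        simp [fr, smul_sub]
      rw [e]
      exact h2

/-- **The dimension bound.** -/
theorem choose_le [Nonempty H.root]
    (hirr : ∀ W : Submodule K V, (∀ x : L, ∀ u ∈ W, ⁅x, u⁆ ∈ W) → W = ⊥ ∨ W = ⊤)
    (hnd : ω.Nondegenerate) (hsk : ∀ (x : L) (u v : V), ω ⁅x, u⁆ v = - ω u ⁅x, v⁆)
    (h : TypeB (Ph (rootSystem H)) (Xw B) ∨ TypeD (Ph (rootSystem H)) (Xw B)) :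
    TypeA (Ph (rootSystem H)) ∨ (Fintype.card I).choose 2 ≤ finrank K L := by
  have hne : (Ph (rootSystem H)).Nonempty := by
    obtain ⟨α⟩ := ‹Nonempty H.root›
    exact ⟨_, (mem_Ph _).2 ⟨α, rfl⟩⟩
  have hgen : ∀ {N : ℕ} {x : Fin N → EuclideanSpace ℝ H.root} {c : ℝ}, Fr (Ph (rootSystem H)) (Xw B) x c →
      ∀ p i, vec (wt B i) = fr x c p → One B i := by
    intro N x c hfr
    have hI : 1 < Fintype.card I := by
      have hN : 0 < N := by
        have := hfr.two
        omega
      obtain ⟨i, hi⟩ := exists_ix B hfr (⟨0, hN⟩, true)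
      obtain ⟨j, hj⟩ := exists_ix B hfr (⟨0, hN⟩, false)
      rw [Fintype.one_lt_card_iff]
      refine ⟨i, j, fun hij => ?_⟩
      rw [hij, hj] at hi
      have h1 := fr_inj hfr.on hfr.pos hi
      simp at h1
    obtain ⟨t, ht, ht0⟩ := exists_one B hirr hnd hsk hI
    rcases hfr.cases _ ((mem_Xw B).2 ⟨t, rfl⟩) with h1 | ⟨p, h1⟩
    · exact absurd h1 ht0
    · refine one_all B hfr (p := p) fun i hi => ?_
      have h2 : i = t := ht i (w_ext B (by rw [hi, h1]))
      rw [h2]
      exact ht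
  rcases h with h | h
  · rcases fr_B h hne with h | ⟨N, x, c, hfr, hB, hB'⟩
    · exact Or.inl h
    right
    have hone := fun p i => hgen hfr p i
    have h1 := card_le_B B hfr (fun i j hi hj => zero_one B hfr hB hB' hone hirr hi hj) hone
    have h2 := card_root_add (K := K) H
    have h3 := le_card' B hfr hB
    have h4 := le_rank B hfr
    have h5 := Nat.choose_le_choose 2 h1
    have h6 : (2 * N + 1).choose 2 = (2 * N + 1) * N := by
      rw [Nat.choose_two_right, Nat.add_sub_cancel]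
      have : (2 * N + 1) * (2 * N) = (2 * N + 1) * N * 2 := by ring
      rw [this, Nat.mul_div_cancel _ (by norm_num)]
    obtain ⟨M, rfl⟩ : ∃ M, N = M + 2 := ⟨N - 2, by have := hfr.two; omega⟩
    have h7 : M + 2 - 1 = M + 1 := by omega
    rw [h7] at h3
    rw [h6] at h5
    nlinarith
  · right
    obtain ⟨h0, N, x, c, hN, hfr⟩ := fr_D h
    have hone := fun p i => hgen hfr p i
    have h1 := card_le_D B hfr (fun i hi => h0 (by rw [← hi]; exact (mem_Xw B).2 ⟨i, rfl⟩)) hone
    have h2 := card_root_add (K := K) H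
    have h3 := le_card B hfr
    have h4 := le_rank B hfr
    have h5 := Nat.choose_le_choose 2 h1
    obtain ⟨M, rfl⟩ : ∃ M, N = M + 2 := ⟨N - 2, by have := hfr.two; omega⟩
    have h6 : (2 * (M + 2)).choose 2 = (M + 2) * (2 * M + 3) := by
      rw [Nat.choose_two_right]
      have h8 : 2 * (M + 2) - 1 = 2 * M + 3 := by omega
      rw [h8]
      have : 2 * (M + 2) * (2 * M + 3) = (M + 2) * (2 * M + 3) * 2 := by ring
      rw [this, Nat.mul_div_cancel _ (by norm_num)]
    have h7 : M + 2 - 1 = M + 1 := by omega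
    rw [h7] at h3
    rw [h6] at h5
    nlinarith

end PF.CC
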