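import Pool.Agent.Helper81.PF.C6
import Pool.Agent.Helper3.PF.LPrime
import Pool.Agent.Helper54.MT.Wrap
import Pool.Agent.Helper54.MT.CartanIn
import Pool.Agent.Helper54.MT.IntDiag

/-!
Project PF, block C: the core theorem, from the combinatorial theorem and the rank one theorem.
-/

set_option linter.unusedSectionVars false

open Module LieModule LieAlgebra LieAlgebra.IsKilling MTP.MF

namespace PF.CC

section skew

variable {K : Type*} [Field K] [CharZero K] {V : Type*} [AddCommGroup V] [Module K V]

/-- The skew endomorphisms. -/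
def skS (ω : LinearMap.BilinForm K V) : Submodule K (Module.End K V) where
  carrier := {x | ∀ u v, ω (x u) v = -ω u (x v)}
  add_mem' := by
    intro x y hx hy u v
    simp only [Set.mem_ofPred_eq] at hx hy
    rw [LinearMap.add_apply, LinearMap.add_apply, map_add, map_add, LinearMap.add_apply, hx, hy]
    ring
  zero_mem' := by
    intro u v
    simp
  smul_mem' := by
    intro c x hx u v
    simp only [Set.mem_ofPred_eq] at hx
    rw [LinearMap.smul_apply, LinearMap.smul_apply, map_smul, map_smul, LinearMap.smul_apply, hx]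
    simp

theorem mem_skS {ω : LinearMap.BilinForm K V} {x : Module.End K V} :
    x ∈ skS ω ↔ ∀ u v, ω (x u) v = -ω u (x v) := Iff.rfl

variable [FiniteDimensional K V] {ω : LinearMap.BilinForm K V}

theorem finrank_skS (hsymm : ω.IsSymm) (hnd : ω.Nondegenerate) :
    finrank K (skS ω) ≤ (finrank K V).choose 2 := by
  obtain ⟨n, hn⟩ : ∃ n, n = finrank K V := ⟨_, rfl⟩
  let b : Basis (Fin n) K V := finBasisOfFinrankEq K V hn.symm
  let f : skS ω →ₗ[K] ((i : Fin n) × Fin i → K) :=
    { toFun := fun x s => ω (x.1 (b s.1)) (b ⟨s.2, s.2.2.trans s.1.2⟩)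
      map_add' := by intro B C; funext s; simp
      map_smul' := by intro c B; funext s; simp }
  have hf : Function.Injective f := by
    rw [injective_iff_map_eq_zero]
    intro x hx
    have hsk : ∀ u v, ω (x.1 u) v = -ω (x.1 v) u := by
      intro u v
      rw [x.2 u v, hsymm.eq u (x.1 v)]
    have hdiag : ∀ u, ω (x.1 u) u = 0 := by
      intro u
      have h1 := hsk u u
      have h2 : (2 : K) * ω (x.1 u) u = 0 := by linear_combination h1
      rcases mul_eq_zero.1 h2 with h3 | h3
      · exact absurd h3 two_ne_zero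
      · exact h3
    have key : ∀ i j : Fin n, j < i → ω (x.1 (b i)) (b j) = 0 := by
      intro i j hij
      have := congrFun hx ⟨i, ⟨j, hij⟩⟩
      exact this
    have key2 : ∀ i j : Fin n, ω (x.1 (b i)) (b j) = 0 := by
      intro i j
      rcases lt_trichotomy i j with h | h | h
      · rw [hsk, key j i h, neg_zero]
      · rw [h, hdiag]
      · exact key i j h
    apply Subtype.ext
    apply b.ext
    intro i
    change x.1 (b i) = 0
    apply hnd.1
    intro v
    have h1 : ω (x.1 (b i)) = 0 := b.ext fun j => by rw [key2, LinearMap.zero_apply]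
    rw [h1, LinearMap.zero_apply]
  have h1 := LinearMap.finrank_le_finrank_of_injective hf
  rw [← hn]
  refine h1.trans (le_of_eq ?_)
  rw [finrank_fintype_fun_eq_card, Fintype.card_sigma]
  simp only [Fintype.card_fin]
  rw [Fin.sum_univ_eq_sum_range (fun i => i) n, Finset.sum_range_id, Nat.choose_two_right]

theorem full_of_le (hsymm : ω.IsSymm) (hnd : ω.Nondegenerate) (L : Submodule K (Module.End K V))
    (hsk : ∀ x ∈ L, ∀ u v, ω (x u) v = -ω u (x v)) (h : (finrank K V).choose 2 ≤ finrank K L)
    (x : Module.End K V) (hx : ∀ u v, ω (x u) v = -ω u (x v)) : x ∈ L := by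
  have h1 : L ≤ skS ω := fun y hy => hsk y hy
  have h2 : L = skS ω := Submodule.eq_of_le_of_finrank_le h1 ((finrank_skS hsymm hnd).trans h)
  rw [h2]
  exact hx

end skew

section eig

variable {K : Type*} [Field K] {V : Type*} [AddCommGroup V] [Module K V] [FiniteDimensional K V]

/-- Simple eigenvalues. -/
theorem finrank_eigenspace_le {I : Type*} [Fintype I] (v : Basis I K V) (h : Module.End K V) (a : I → K)
    (ha : ∀ i, h (v i) = a i • v i) (hinj : Function.Injective a) (c : K) :
    finrank K (Module.End.eigenspace h c) ≤ 1 := by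
  have hco : ∀ u ∈ Module.End.eigenspace h c, ∀ i, v.repr u i ≠ 0 → a i = c := by
    intro u hu i hi
    rw [Module.End.mem_eigenspace_iff] at hu
    have h1 : h u = ∑ j, (v.repr u j * a j) • v j := by
      conv_lhs => rw [← v.sum_repr u]
      rw [map_sum]
      refine Finset.sum_congr rfl fun j _ => ?_
      rw [map_smul, ha, smul_smul]
    have h2 : v.repr (h u) i = v.repr u i * a i := by
      rw [h1, v.repr_sum_self]
    rw [hu, map_smul, Finsupp.smul_apply, smul_eq_mul] at h2
    have h3 : v.repr u i * (a i - c) = 0 := by linear_combination -h2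
    rcases mul_eq_zero.mp h3 with h4 | h4
    · exact absurd h4 hi
    · exact sub_eq_zero.1 h4
  by_cases hex : ∃ i, a i = c
  · obtain ⟨i, hi⟩ := hex
    have h1 : Module.End.eigenspace h c ≤ Submodule.span K {v i} := by
      intro u hu
      rw [Submodule.mem_span_singleton]
      refine ⟨v.repr u i, ?_⟩
      conv_rhs => rw [← v.sum_repr u]
      symm
      refine Finset.sum_eq_single i (fun j _ hj => ?_) (fun h => absurd (Finset.mem_univ _) h)
      by_contra h2
      apply hj
      apply hinj
      rw [hi]
      exact hco u hu j fun h3 => h2 (by rw [h3, zero_smul])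
    exact (Submodule.finrank_mono h1).trans (finrank_span_le_card ({v i} : Set V) |>.trans (by simp))
  · have h1 : Module.End.eigenspace h c = ⊥ := by
      rw [eq_bot_iff]
      intro u hu
      rw [Submodule.mem_bot, ← v.repr.map_eq_zero_iff]
      ext i
      by_contra h2
      exact hex ⟨i, hco u hu i h2⟩
    rw [h1, finrank_bot]
    exact Nat.zero_le _

end eig

attribute [local instance 100] LieRing.ofAssociativeRing

variable {K : Type*} [Field K] [CharZero K] [IsAlgClosed K] {V : Type*} [AddCommGroup V] [Module K V]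
  [FiniteDimensional K V]

/-- The combinatorial theorem. -/
def Comb : Prop := ∀ (E : Type) [NormedAddCommGroup E] [InnerProductSpace ℝ E] (Φ X : Finset E), RS Φ → Sat Φ X →
  (∃ x ∈ X, x ≠ 0) → ∀ p : ℕ, 25 * X.card ≤ p ^ 2 → ∀ a x : E, a ∈ Φ → x ∈ X →
  (p : ℝ) ≤ co a x + qs Φ a → TypeA Φ ∨ TypeB Φ X ∨ TypeD Φ X

end PF.CC
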