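import Pool.Agent.Helper81.PF.C7

/-!
Project PF, block C: the core theorem, from the combinatorial theorem and the rank one theorem.
-/

set_option linter.unusedSectionVars false

open Module LieModule LieAlgebra LieAlgebra.IsKilling MTP.MF

namespace PF.CC

section gen

variable {K : Type*} [Field K] [CharZero K] [IsAlgClosed K]
  {L : Type*} [LieRing L] [LieAlgebra K L] [FiniteDimensional K L] [IsKilling K L]
  {H : LieSubalgebra K L} [H.IsCartanSubalgebra]
  {V : Type*} [AddCommGroup V] [Module K V] [FiniteDimensional K V]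
  [LieRingModule L V] [LieModule K L V] {I : Type*} [Fintype I] (B : WB (V := V) H I)
  {ω : LinearMap.BilinForm K V}

theorem dich [(rootSystem H).IsIrreducible] [Nonempty H.root] [Nonempty I]
    (hirr : ∀ W : Submodule K V, (∀ x : L, ∀ u ∈ W, ⁅x, u⁆ ∈ W) → W = ⊥ ∨ W = ⊤)
    (hfaith : ∀ x : L, (∀ u : V, ⁅x, u⁆ = 0) → x = 0)
    (hnd : ω.Nondegenerate) (hsk : ∀ (x : L) (u v : V), ω ⁅x, u⁆ v = - ω u ⁅x, v⁆)
    {p : ℕ} (hp : p.Prime) (hd : p ∣ Fintype.card I) (h25 : 25 * Fintype.card I ≤ p ^ 2)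
    (hcomb : ∀ Φ X : Finset (EuclideanSpace ℝ H.root), RS Φ → Sat Φ X → (∃ x ∈ X, x ≠ 0) →
      25 * X.card ≤ p ^ 2 → ∀ a x, a ∈ Φ → x ∈ X → (p : ℝ) ≤ co a x + qs Φ a →
      TypeA Φ ∨ TypeB Φ X ∨ TypeD Φ X) :
    TypeA (Ph (rootSystem H)) ∨ TypeB (Ph (rootSystem H)) (Xw B) ∨ TypeD (Ph (rootSystem H)) (Xw B) := by
  obtain ⟨α, i, k, hk, hle⟩ := PF.L.exists_large B hirr hfaith hp hd ‹Nonempty I›
  refine hcomb _ _ (rs _) (sat B hirr hnd hsk) (exists_ne_zero' B hfaith α)
    ((Nat.mul_le_mul_left 25 (card_Xw B)).trans h25) (vec (rt (rootSystem H) α)) (vec (wt B i))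
    ((mem_Ph _).2 ⟨α, rfl⟩) ((mem_Xw B).2 ⟨i, rfl⟩) ?_
  have h1 : wt B i α = k := by
    have h2 : ((wt B i α : ℤ) : K) = k := by rw [← wt_spec, hk]
    exact_mod_cast h2
  rw [co_vec _ (wt_wt B i) α, qs_eq, h1]
  have h2 : ((p : ℚ) : ℝ) ≤ ((k + (1 / 4) * ∑ g : H.root, |((rootSystem H).pairingIn ℤ g α : ℚ)| : ℚ) : ℝ) := by
    exact_mod_cast hle
  push_cast at h2
  exact h2

end gen

attribute [local instance 100] LieRing.ofAssociativeRing

variable {K : Type*} [Field K] [CharZero K] [IsAlgClosed K] {V : Type*} [AddCommGroup V] [Module K V]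
  [FiniteDimensional K V]

open Pool.Agent.Helper54.MT (semisimple_of_diag exists_cartan_end killing_of)

/-- **The core theorem**, with the combinatorial theorem and the rank one theorem as hypotheses. -/
theorem core_of (ω : LinearMap.BilinForm K V) (hsymm : ω.IsSymm) (hnd : ω.Nondegenerate)
    (L : LieSubalgebra K (Module.End K V)) [LieAlgebra.IsSimple K L]
    (hirr : ∀ W : Submodule K V, (∀ x ∈ L, ∀ u ∈ W, x u ∈ W) → W = ⊥ ∨ W = ⊤)
    (hsk : ∀ x ∈ L, ∀ u v, ω (x u) v = -ω u (x v)) {p : ℕ} (hp : p.Prime) (hd : p ∣ finrank K V)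
    (h25 : 25 * finrank K V ≤ p ^ 2)
    (hcomb : ∀ (_ : IsKilling K L) (H : LieSubalgebra K L) (_ : H.IsCartanSubalgebra),
      ∀ Φ X : Finset (EuclideanSpace ℝ H.root), RS Φ → Sat Φ X → (∃ x ∈ X, x ≠ 0) →
      25 * X.card ≤ p ^ 2 → ∀ a x, a ∈ Φ → x ∈ X → (p : ℝ) ≤ co a x + qs Φ a →
      TypeA Φ ∨ TypeB Φ X ∨ TypeD Φ X)
    (htype : ∀ (_ : IsKilling K L) (H : LieSubalgebra K L) (_ : H.IsCartanSubalgebra) (n : ℕ)
      (B : WB (V := V) H (Fin n)), TypeA (Ph (rootSystem H)) → ∀ h : H, h ≠ 0 →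
      Function.Injective fun i => B.w i h) :
    (∀ x : Module.End K V, (∀ u v, ω (x u) v = -ω u (x v)) → x ∈ L) ∨
      ∀ h ∈ L, h ≠ 0 → (⨆ c : K, Module.End.eigenspace h c) = ⊤ → ∀ c : K, finrank K (Module.End.eigenspace h c) ≤ 1 := by
  classical
  by_cases hfull : ∀ x : Module.End K V, (∀ u v, ω (x u) v = -ω u (x v)) → x ∈ L
  · exact Or.inl hfull
  right
  intro y hy hy0 hdiag c
  have hVn : Nontrivial V := by
    by_contra hcon
    rw [not_nontrivial_iff_subsingleton] at hcon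
    apply hy0
    ext u
    exact Subsingleton.elim _ _
  have hk : IsKilling K L := by
    refine killing_of (ω := ω) hnd ⟨?_, ?_, ?_⟩
    · intro x hx y hy
      have := L.lie_mem hx hy
      exact this
    · intro x hx u v
      exact hsk x hx u v
    · intro W hW
      exact hirr W hW
  obtain ⟨H, hH, hyH⟩ := exists_cartan_end (L := L) ⟨y, hy⟩ (semisimple_of_diag hdiag)
  have hirrR : (rootSystem H).IsIrreducible := inferInstance
  have hne : Nonempty H.root := by
    by_contra hcon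
    rw [not_nonempty_iff] at hcon
    have hN : Nontrivial H := RootPairing.IsIrreducible.nontrivial' (rootSystem H)
    have h1 : (⊤ : Submodule K H) = ⊥ := by
      have h2 : (rootSystem H).corootSpan K = ⊤ := RootPairing.IsRootSystem.span_coroot_eq_top
      rw [← h2, RootPairing.corootSpan, Set.range_eq_empty, Submodule.span_empty]
    exact bot_ne_top h1.symm
  have hirr' : ∀ W : Submodule K V, (∀ x : L, ∀ u ∈ W, ⁅x, u⁆ ∈ W) → W = ⊥ ∨ W = ⊤ :=
    fun W hW => hirr W fun z hz w hw => hW ⟨z, hz⟩ w hw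
  have hsk' : ∀ (x : L) (u v : V), ω ⁅x, u⁆ v = - ω u ⁅x, v⁆ := by
    intro x u v
    exact hsk x x.2 u v
  have hfaith : ∀ x : L, (∀ u : V, ⁅x, u⁆ = 0) → x = 0 := by
    intro x hx
    apply Subtype.ext
    ext u
    exact hx u
  obtain ⟨n, ⟨B⟩⟩ := exists_WB (V := V) (H := H) hirr'
  have hcard : Fintype.card (Fin n) = finrank K V := (finrank_eq_card_basis B.v).symm
  have hneI : Nonempty (Fin n) := by
    rw [← Fintype.card_pos_iff, hcard]
    exact finrank_pos
  have hA : TypeA (Ph (rootSystem H)) := by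
    have h1 := dich B hirr' hfaith hnd hsk' hp (by rw [hcard]; exact hd) (by rw [hcard]; exact h25)
      (hcomb hk H hH)
    rcases h1 with h1 | h1
    · exact h1
    · rcases choose_le B hirr' hnd hsk' h1 with h2 | h2
      · exact h2
      · exfalso
        apply hfull
        intro x hx
        rw [hcard] at h2
        exact full_of_le hsymm hnd L.toSubmodule (fun z hz => hsk z hz) h2 x hx
  set y' : H := ⟨⟨y, hy⟩, hyH⟩ with hy'
  refine finrank_eigenspace_le B.v y (fun i => B.w i y') (fun i => B.lie_v i y') ?_ c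
  refine htype hk H hH n B hA y' ?_
  intro h0
  apply hy0
  have h1 := congrArg (fun z : H => ((z : L) : Module.End K V)) h0
  exact h1

end PF.CC
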